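import Mathlib

/-!
# Absolutely continuous measures have continuous marginals and fibres.  Size: S-M (Mathlib only).

`volume = volume.prod volume` on `ℝ × ℝ` (`Measure.volume_eq_prod`).  First marginal: `ρ.fst {a} = ρ ({a} ×ˢ univ)` and the volume of a vertical line is 0.
Fibres: `ρ = ρ.fst ⊗ₘ ρ.condKernel ≪ volume.prod volume = volume ⊗ₘ Kernel.const _ volume` (`Measure.compProd_const`), so by
`Measure.AbsolutelyContinuous.kernel_of_compProd` (file `Mathlib/Probability/Kernel/Composition/AbsolutelyContinuous.lean`) `ρ.condKernel x ≪ volume` for `ρ.fst`-almost every `x`.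
(Alternatively with the finite measure `exp(-|x|)` like density, or directly: the Radon-Nikodym density.)
-/

open MeasureTheory

namespace Pool.Agent.Work.MP_763b10_co.AC

theorem aco (ρ : Measure (ℝ × ℝ)) [IsFiniteMeasure ρ] (h : ρ ≪ volume) :
    (∀ x, ρ.fst {x} = 0) ∧ ∀ᵐ t ∂ρ.fst, ∀ y, ρ.condKernel t {y} = 0 := by
  refine ⟨fun x => ?_, ?_⟩
  · rw [Measure.fst_apply (measurableSet_singleton x)]
    apply h
    have hset : (Prod.fst ⁻¹' {x} : Set (ℝ × ℝ)) = {x} ×ˢ Set.univ := by
      ext p; simp
    rw [hset, Measure.volume_eq_prod, Measure.prod_prod]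
    simp
  · have h1 : ρ.fst.compProd ρ.condKernel ≪ (volume : Measure ℝ).compProd
        (ProbabilityTheory.Kernel.const ℝ (volume : Measure ℝ).toFinite) := by
      rw [Measure.compProd_const, ρ.disintegrate ρ.condKernel]
      refine h.trans ?_
      rw [Measure.volume_eq_prod]
      exact Measure.AbsolutelyContinuous.rfl.prod (absolutelyContinuous_toFinite volume)
    have h2 := h1.kernel_of_compProd
    filter_upwards [h2] with t ht y
    apply ht
    apply toFinite_absolutelyContinuous (volume : Measure ℝ)
    simp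

end Pool.Agent.Work.MP_763b10_co.AC
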