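import Pool.Agent.Work.MP_763b10_co.AC.Gen
import Pool.Agent.Work.MP_763b10_co.AC.Aco

/-!
# The absolutely continuous part of a vague limit.  Size: S-M.

Apply `gen` with `u n = Prod.fst`, `v n = Prod.snd` (`SegMono`: the coordinates of a point of `openSegment ℝ p q` lie between those of `p` and `q`) and
`ρ = volume.withDensity (μ.rnDeriv volume)`: finite, `ρ ≤ μ` (`Measure.withDensity_rnDeriv_le`), `ρ ≪ volume` (`withDensity_absolutelyContinuous`), so `h1`, `h2` by `aco`;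
`hlim`: `∫ φ ∂ρ ≤ ∫ φ ∂μ` for `φ ≥ 0` (integrable: continuous with compact support) and `(∑ φ) / N → ∫ φ ∂μ` (for `N > 0`; `N → ∞`).
`ρ.real univ = (∫⁻ x, μ.rnDeriv volume x).toReal`.
-/

open MeasureTheory Filter

namespace Pool.Agent.Work.MP_763b10_co.AC

theorem vac (P Q : ℕ → Finset (ℝ × ℝ)) (hP : ∀ n, GenPos (P n)) (hQ : ∀ n, Blocks (Q n) (P n))
    (hcard : Tendsto (fun n => (P n).card) atTop atTop) (μ : Measure (ℝ × ℝ)) [IsFiniteMeasure μ]
    (hμ : ∀ φ : ℝ × ℝ → ℝ, Continuous φ → HasCompactSupport φ →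
      Tendsto (fun n => (∑ p ∈ P n, φ p) / ((P n).card : ℝ)) atTop (nhds (∫ x, φ x ∂μ)))
    (c : ℝ) (hc : c < 4 * (∫⁻ x, μ.rnDeriv volume x).toReal) :
    ∀ᶠ n in atTop, c * ((P n).card : ℝ) ≤ ((Q n).card : ℝ) := by
  have hle : (volume : Measure (ℝ × ℝ)).withDensity (μ.rnDeriv volume) ≤ μ :=
    Measure.withDensity_rnDeriv_le μ volume
  obtain ⟨ρ, hρ⟩ : ∃ ρ : Measure (ℝ × ℝ), ρ = volume.withDensity (μ.rnDeriv volume) := ⟨_, rfl⟩
  rw [← hρ] at hle
  haveI : IsFiniteMeasure ρ := isFiniteMeasure_of_le μ hle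
  have hac : ρ ≪ volume := by
    rw [hρ]
    exact withDensity_absolutelyContinuous _ _
  obtain ⟨h1, h2⟩ := aco ρ hac
  refine gen P Q hP hQ hcard (fun _ => Prod.fst) (fun _ => Prod.snd) ?_ ?_ ρ h1 h2 ?_ c ?_
  · intro n p _ q _ x hx
    obtain ⟨s, t, hs, ht, hst, rfl⟩ := hx
    exact (convex_uIcc p.1 q.1) Set.left_mem_uIcc Set.right_mem_uIcc hs.le ht.le hst
  · intro n p _ q _ x hx
    obtain ⟨s, t, hs, ht, hst, rfl⟩ := hx
    exact (convex_uIcc p.2 q.2) Set.left_mem_uIcc Set.right_mem_uIcc hs.le ht.le hst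
  · intro φ hφc hφs hφ0 δ hδ
    have hint : Integrable φ μ := hφc.integrable_of_hasCompactSupport hφs
    have hm : ∫ x, φ x ∂ρ ≤ ∫ x, φ x ∂μ :=
      integral_mono_measure hle (Eventually.of_forall hφ0) hint
    filter_upwards [(hμ φ hφc hφs).eventually (lt_mem_nhds (sub_lt_self _ hδ)),
      hcard.eventually_gt_atTop 0] with n h3 h4
    have h5 : (0 : ℝ) < ((P n).card : ℝ) := by exact_mod_cast h4
    rw [lt_div_iff₀ h5] at h3
    calc ((∫ x, φ x ∂ρ) - δ) * ((P n).card : ℝ) ≤ ((∫ x, φ x ∂μ) - δ) * ((P n).card : ℝ) := by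
          apply mul_le_mul_of_nonneg_right _ h5.le
          linarith
      _ ≤ ∑ p ∈ P n, φ (Prod.fst p, Prod.snd p) := h3.le
  · have h6 : ρ.real Set.univ = (∫⁻ x, μ.rnDeriv volume x).toReal := by
      rw [measureReal_def, hρ, withDensity_apply _ MeasurableSet.univ, Measure.restrict_univ]
    rw [h6]
    exact hc

end Pool.Agent.Work.MP_763b10_co.AC
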