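import Mathlib

/-!
# Approximation of disjoint sets by intervals

Compact sets inside the given sets, open sets around the compact sets, and a fine grid of half-open intervals.
-/

open MeasureTheory

namespace Pool.Agent.Work.MP_763b10_co.AC

private theorem appr_grid_disj {η : ℝ} (hη : 0 < η) {j k : ℤ} (h : j ≠ k) :
    Disjoint (Set.Ico ((j : ℝ) * η) (((j : ℝ) + 1) * η)) (Set.Ico ((k : ℝ) * η) (((k : ℝ) + 1) * η)) := by
  rw [Set.disjoint_left]
  intro x hx hx'
  apply h
  have h1 : ⌊x / η⌋ = j := by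
    rw [Int.floor_eq_iff]
    exact ⟨by rw [le_div_iff₀ hη]; exact hx.1, by rw [div_lt_iff₀ hη]; exact hx.2⟩
  have h2 : ⌊x / η⌋ = k := by
    rw [Int.floor_eq_iff]
    exact ⟨by rw [le_div_iff₀ hη]; exact hx'.1, by rw [div_lt_iff₀ hη]; exact hx'.2⟩
  rw [← h1, ← h2]

private theorem appr_grid_mem {η : ℝ} (hη : 0 < η) (x : ℝ) :
    x ∈ Set.Ico ((⌊x / η⌋ : ℝ) * η) (((⌊x / η⌋ : ℝ) + 1) * η) := by
  constructor
  · rw [← le_div_iff₀ hη]
    exact Int.floor_le _
  · rw [← div_lt_iff₀ hη]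
    exact Int.lt_floor_add_one _

theorem appr (ν : Measure ℝ) [IsFiniteMeasure ν] {s : ℕ} (T : Fin s → Set ℝ) (hT : ∀ i, MeasurableSet (T i))
    (hdis : Pairwise fun i j => Disjoint (T i) (T j)) (δ : ℝ) (hδ : 0 < δ) :
    ∃ (r : ℕ) (a b : Fin r → ℝ) (l : Fin r → Fin s), (∀ i, a i < b i) ∧
      (Pairwise fun i j => Disjoint (Set.Ico (a i) (b i)) (Set.Ico (a j) (b j))) ∧
      ∑ i, ν.real (Set.Ico (a i) (b i) \ T (l i)) ≤ δ ∧
      ν.real (⋃ i, T i) - δ ≤ ∑ i, ν.real (Set.Ico (a i) (b i)) := by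
  classical
  have hs : (0 : ℝ) < (s : ℝ) + 1 := by positivity
  have hd : 0 < δ / ((s : ℝ) + 1) := div_pos hδ hs
  have hd' : ENNReal.ofReal (δ / ((s : ℝ) + 1)) ≠ 0 := by
    simp only [ne_eq, ENNReal.ofReal_eq_zero, not_le]
    exact hd
  -- compact sets inside
  have hK : ∀ i, ∃ K, K ⊆ T i ∧ IsCompact K ∧ ν (T i \ K) < ENNReal.ofReal (δ / ((s : ℝ) + 1)) :=
    fun i => (hT i).exists_isCompact_sdiff_lt (measure_ne_top ν _) hd'
  choose K hKT hKc hKm using hK
  have hU : ∀ i, ∃ U, U ⊇ K i ∧ IsOpen U ∧ ν U < ⊤ ∧ ν (U \ K i) < ENNReal.ofReal (δ / ((s : ℝ) + 1)) :=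
    fun i => (hKc i).measurableSet.exists_isOpen_sdiff_lt (measure_ne_top ν _) hd'
  choose U hUK hUo _ hUm using hU
  have hreal : ∀ S : Set ℝ, ν S < ENNReal.ofReal (δ / ((s : ℝ) + 1)) → ν.real S ≤ δ / ((s : ℝ) + 1) := by
    intro S hS
    have := ENNReal.toReal_mono ENNReal.ofReal_ne_top hS.le
    rwa [ENNReal.toReal_ofReal hd.le] at this
  have hsum : ∑ _i : Fin s, δ / ((s : ℝ) + 1) ≤ δ := by
    rw [Finset.sum_const, Finset.card_univ, Fintype.card_fin, nsmul_eq_mul, ← mul_div_assoc, div_le_iff₀ hs]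
    nlinarith
  -- separation
  have hη : ∃ η : ℝ, 0 < η ∧ ∀ i, Metric.thickening η (K i) ⊆ U i ∩ ⋂ j, ⋂ (_ : j ≠ i), (K j)ᶜ := by
    have h1 : ∀ i, ∃ η : ℝ, 0 < η ∧ Metric.thickening η (K i) ⊆ U i ∩ ⋂ j, ⋂ (_ : j ≠ i), (K j)ᶜ := by
      intro i
      apply (hKc i).exists_thickening_subset_open
      · apply (hUo i).inter
        apply isOpen_iInter_of_finite
        intro j
        apply isOpen_iInter_of_finite
        intro _
        exact (hKc j).isClosed.isOpen_compl
      · intro x hx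
        refine ⟨hUK i hx, ?_⟩
        simp only [Set.mem_iInter, Set.mem_compl_iff]
        intro j hj hxj
        exact Set.disjoint_left.1 (hdis hj) (hKT j hxj) (hKT i hx)
    choose η hη0 hη1 using h1
    have h2 : ∀ᶠ t : ℝ in nhdsWithin 0 (Set.Ioi 0), ∀ i, t < η i := by
      rw [Filter.eventually_all]
      intro i
      exact Filter.mem_of_superset (Ioo_mem_nhdsGT (hη0 i)) fun t ht => ht.2
    obtain ⟨t, ht, ht0⟩ := (h2.and self_mem_nhdsWithin).exists
    exact ⟨t, ht0, fun i => (Metric.thickening_mono (ht i).le _).trans (hη1 i)⟩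
  obtain ⟨η, hη0, hη1⟩ := hη
  -- boundedness
  have hbd : Bornology.IsBounded (⋃ i, K i) := (isCompact_iUnion hKc).isBounded
  obtain ⟨R, hR⟩ := hbd.subset_closedBall 0
  obtain ⟨N, hN⟩ := exists_nat_gt (R / η)
  -- the grid
  set J : Finset ℤ := (Finset.Ico (-(N : ℤ) - 1) ((N : ℤ) + 1)).filter
    (fun j => ∃ i, ∃ x ∈ K i, x ∈ Set.Ico ((j : ℝ) * η) (((j : ℝ) + 1) * η)) with hJ
  have hmemJ : ∀ i, ∀ x ∈ K i, ⌊x / η⌋ ∈ J := by
    intro i x hx
    rw [hJ, Finset.mem_filter, Finset.mem_Ico]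
    have hxR : |x| ≤ R := by
      have := hR (Set.mem_iUnion.2 ⟨i, hx⟩)
      simpa [Real.norm_eq_abs] using this
    have hxN : |x / η| < N := by
      rw [abs_div, abs_of_pos hη0]
      exact lt_of_le_of_lt (div_le_div_of_nonneg_right hxR hη0.le) hN
    rw [abs_lt] at hxN
    refine ⟨⟨?_, ?_⟩, i, x, hx, appr_grid_mem hη0 x⟩
    · rw [Int.le_floor]
      push_cast
      linarith [hxN.1]
    · rw [Int.floor_lt]
      push_cast
      linarith [hxN.2]
  have hex : ∀ j : J, ∃ i, ∃ x ∈ K i, x ∈ Set.Ico (((j : ℤ) : ℝ) * η) ((((j : ℤ) : ℝ) + 1) * η) := by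
    intro j
    exact (Finset.mem_filter.1 j.2).2
  choose lab y hyK hyI using hex
  let e : Fin J.card ≃ J := J.equivFin.symm
  have hsub : ∀ j : J, Set.Ico (((j : ℤ) : ℝ) * η) ((((j : ℤ) : ℝ) + 1) * η) ⊆ U (lab j) := by
    intro j x hx
    have hxt : x ∈ Metric.thickening η (K (lab j)) := by
      rw [Metric.mem_thickening_iff]
      refine ⟨y j, hyK j, ?_⟩
      rw [Real.dist_eq, abs_lt]
      have h1 := hyI j
      constructor
      · nlinarith [hx.1, hx.2, h1.1, h1.2]
      · nlinarith [hx.1, hx.2, h1.1, h1.2]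
    exact (hη1 _ hxt).1
  have hdisI : Pairwise fun i j : Fin J.card =>
      Disjoint (Set.Ico ((((e i : J) : ℤ) : ℝ) * η) (((((e i : J) : ℤ) : ℝ) + 1) * η))
        (Set.Ico ((((e j : J) : ℤ) : ℝ) * η) (((((e j : J) : ℤ) : ℝ) + 1) * η)) := by
    intro i j hij
    apply appr_grid_disj hη0
    intro h
    exact hij (e.injective (Subtype.ext h))
  refine ⟨J.card, fun i => (((e i : J) : ℤ) : ℝ) * η, fun i => ((((e i : J) : ℤ) : ℝ) + 1) * η,
    fun i => lab (e i), ?_, hdisI, ?_, ?_⟩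
  · intro i
    simp only
    nlinarith
  · calc ∑ i, ν.real (Set.Ico ((((e i : J) : ℤ) : ℝ) * η) (((((e i : J) : ℤ) : ℝ) + 1) * η) \ T (lab (e i)))
        = ∑ k, ∑ i with lab (e i) = k,
            ν.real (Set.Ico ((((e i : J) : ℤ) : ℝ) * η) (((((e i : J) : ℤ) : ℝ) + 1) * η) \ T (lab (e i))) := by
          rw [Finset.sum_fiberwise]
      _ ≤ ∑ k, ν.real (U k \ K k) := by
          apply Finset.sum_le_sum
          intro k _
          have h1 : ∑ i with lab (e i) = k,
              ν.real (Set.Ico ((((e i : J) : ℤ) : ℝ) * η) (((((e i : J) : ℤ) : ℝ) + 1) * η) \ T (lab (e i)))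
              = ∑ i with lab (e i) = k,
              ν.real (Set.Ico ((((e i : J) : ℤ) : ℝ) * η) (((((e i : J) : ℤ) : ℝ) + 1) * η) \ T k) := by
            apply Finset.sum_congr rfl
            intro i hi
            rw [(Finset.mem_filter.1 hi).2]
          rw [h1, ← measureReal_biUnion_finset]
          · apply measureReal_mono _ (measure_ne_top ν _)
            intro x hx
            simp only [Set.mem_iUnion] at hx
            obtain ⟨i, hi, hxi⟩ := hx
            have hi2 := (Finset.mem_filter.1 hi).2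
            refine ⟨?_, ?_⟩
            · have := hsub (e i) hxi.1
              rwa [hi2] at this
            · intro hxK
              exact hxi.2 (hKT k hxK)
          · intro i _ j _ hij
            exact (hdisI hij).mono Set.sdiff_subset Set.sdiff_subset
          · intro i _
            exact measurableSet_Ico.diff (hT k)
      _ ≤ ∑ _k : Fin s, δ / ((s : ℝ) + 1) := by
          apply Finset.sum_le_sum
          intro k _
          exact hreal _ (hUm k)
      _ ≤ δ := hsum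
  · have h1 : ∑ i, ν.real (Set.Ico ((((e i : J) : ℤ) : ℝ) * η) (((((e i : J) : ℤ) : ℝ) + 1) * η))
        = ν.real (⋃ i ∈ (Finset.univ : Finset (Fin J.card)),
          Set.Ico ((((e i : J) : ℤ) : ℝ) * η) (((((e i : J) : ℤ) : ℝ) + 1) * η)) := by
      rw [measureReal_biUnion_finset]
      · intro i _ j _ hij
        exact hdisI hij
      · intro i _
        exact measurableSet_Ico
    have h2 : (⋃ i, T i) ⊆ (⋃ i ∈ (Finset.univ : Finset (Fin J.card)),
          Set.Ico ((((e i : J) : ℤ) : ℝ) * η) (((((e i : J) : ℤ) : ℝ) + 1) * η))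
          ∪ ⋃ k ∈ (Finset.univ : Finset (Fin s)), (T k \ K k) := by
      intro x hx
      obtain ⟨k, hk⟩ := Set.mem_iUnion.1 hx
      by_cases hxK : x ∈ K k
      · left
        simp only [Set.mem_iUnion]
        refine ⟨e.symm ⟨⌊x / η⌋, hmemJ k x hxK⟩, Finset.mem_univ _, ?_⟩
        rw [Equiv.apply_symm_apply]
        exact appr_grid_mem hη0 x
      · right
        simp only [Set.mem_iUnion]
        exact ⟨k, Finset.mem_univ _, hk, hxK⟩
    have h3 : ν.real (⋃ k ∈ (Finset.univ : Finset (Fin s)), (T k \ K k)) ≤ δ := by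
      refine (measureReal_biUnion_finset_le _ _).trans ?_
      exact (Finset.sum_le_sum fun k _ => hreal _ (hKm k)).trans hsum
    have h4 := (measureReal_mono h2 (measure_ne_top ν _)).trans (measureReal_union_le _ _)
    rw [h1]
    linarith

end Pool.Agent.Work.MP_763b10_co.AC
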