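import Pool.Agent.Work.MP_763b10_co.AC.Defs

/-!
# Assembly for one set.  Size: M-L.

Let `N = |P|`, `k i = ⌊m i N / M²⌋₊`, `cell i a b = P.filter (u ∈ Ico (X i a.castSucc) (X i a.succ) ∧ v ∈ Ico (Y i b.castSucc) (Y i b.succ))`.  Choose
`C i a b ⊆ cell i a b` with `min (k i) (card)` elements (`Finset.exists_subset_card_eq`) and `P' i = ⋃ a b, C i a b` (disjoint union: for fixed `i` the cells are pairwise disjoint).
Index functions: `F i x = #{a : Fin M | a ≠ 0 ∧ X i a.castSucc ≤ u x}`, `G i` similarly with `Y`, `v`: they are monotone functions of `u x`, `v x`, hence `SegMono` on `P' i ⊆ P`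
(a monotone function maps `uIcc` into `uIcc`), and `F i p = a`, `G i p = b` for `p ∈ cell i a b` (`X i` monotone: the thresholds with number `≤ a` are `≤ u p`, those
with number `> a` are `≥ X i a.succ > u p`).  `Q' i = Q.filter (u ∈ Ico (X i 0) (X i (last M)))`: pairwise disjoint, so `∑ |Q' i| ≤ |Q|`; a point of `Q` on a
segment between two points of `P' i` is in `Q' i` (`hu`).  `GenPos`, `Blocks` pass to subsets of `P`.  `hg` gives `4 (1-ε) k i M² - 8 (k i M² - |P' i|) ≤ |Q' i|`, and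
`k i M² - |P' i| = ∑ a b, (k i - min (k i) (card)) ≤ ∑ a b, max 0 (m i N / M² - (w i a b - τ) N) ≤ N (∑ a b, max 0 (m i / M² - w i a b) + M² τ)`,
`k i M² ≥ m i N - M²`.  Sum over `i` (`0 ≤ 1 - ε ≤ 1`).
-/

namespace Pool.Agent.Work.MP_763b10_co.AC

open Classical in
private noncomputable def ix {M : ℕ} (X : Fin (M + 1) → ℝ) (t : ℝ) : ℕ :=
  ((Finset.univ : Finset (Fin M)).filter (fun a : Fin M => 0 < (a : ℕ) ∧ X a.castSucc ≤ t)).card

private theorem ix_mono {M : ℕ} (X : Fin (M + 1) → ℝ) : Monotone (ix X) := by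
  classical
  intro s t hst
  unfold ix
  apply Finset.card_le_card
  intro a ha
  rw [Finset.mem_filter] at ha ⊢
  exact ⟨ha.1, ha.2.1, ha.2.2.trans hst⟩

private theorem ix_eq {M : ℕ} {X : Fin (M + 1) → ℝ} (hX : Monotone X) {t : ℝ} {a : Fin M}
    (ht : t ∈ Set.Ico (X a.castSucc) (X a.succ)) : ix X t = (a : ℕ) := by
  classical
  unfold ix
  have h1 : ((Finset.univ : Finset (Fin M)).filter (fun b : Fin M => 0 < (b : ℕ) ∧ X b.castSucc ≤ t)).map Fin.valEmbedding
      = Finset.Ioc 0 (a : ℕ) := by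
    ext j
    simp only [Finset.mem_map, Finset.mem_filter, Finset.mem_univ, true_and, Fin.valEmbedding_apply, Finset.mem_Ioc]
    constructor
    · rintro ⟨b, ⟨hb1, hb2⟩, rfl⟩
      refine ⟨hb1, ?_⟩
      by_contra hlt
      push Not at hlt
      have h2 : a.succ ≤ b.castSucc := by
        rw [Fin.le_def]
        simp only [Fin.val_succ, Fin.val_castSucc]
        omega
      have h3 := hX h2
      linarith [ht.2]
    · rintro ⟨hj1, hj2⟩
      refine ⟨⟨j, lt_of_le_of_lt hj2 a.isLt⟩, ⟨hj1, ?_⟩, rfl⟩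
      refine le_trans (hX ?_) ht.1
      rw [Fin.le_def]
      simp only [Fin.val_castSucc]
      exact hj2
  have h2 := congrArg Finset.card h1
  rw [Finset.card_map] at h2
  rw [h2, Nat.card_Ioc, Nat.sub_zero]

private theorem mem_big {M : ℕ} {X : Fin (M + 1) → ℝ} (hX : Monotone X) {t : ℝ} {a : Fin M}
    (ht : t ∈ Set.Ico (X a.castSucc) (X a.succ)) : t ∈ Set.Ico (X 0) (X (Fin.last M)) :=
  ⟨(hX (Fin.zero_le _)).trans ht.1, lt_of_lt_of_le ht.2 (hX (Fin.le_last _))⟩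

private theorem one {ε : ℝ} {M : ℕ} (hg : GridBound ε M) {P Q : Finset (ℝ × ℝ)}
    (hP : GenPos P) (hQ : Blocks Q P) {u v : ℝ × ℝ → ℝ} (hu : SegMono P u) (hv : SegMono P v)
    (X Y : Fin (M + 1) → ℝ) (hX : Monotone X) (hY : Monotone Y) (k : ℕ) (c : Fin M → Fin M → ℕ)
    (hc : ∀ a b, c a b = (P.filter (fun p => u p ∈ Set.Ico (X a.castSucc) (X a.succ) ∧
      v p ∈ Set.Ico (Y b.castSucc) (Y b.succ))).card) :
    4 * (1 - ε) * (k : ℝ) * (M : ℝ) ^ 2 - 8 * ∑ a : Fin M, ∑ b : Fin M, ((k : ℝ) - ((min k (c a b) : ℕ) : ℝ)) ≤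
      ((Q.filter (fun x => u x ∈ Set.Ico (X 0) (X (Fin.last M)))).card : ℝ) := by
  classical
  have hch : ∀ ab : Fin M × Fin M, ∃ C : Finset (ℝ × ℝ), C ⊆ P.filter (fun p => u p ∈ Set.Ico (X ab.1.castSucc) (X ab.1.succ) ∧
      v p ∈ Set.Ico (Y ab.2.castSucc) (Y ab.2.succ)) ∧ C.card = min k (c ab.1 ab.2) := by
    intro ab
    apply Finset.exists_subset_card_eq
    rw [hc]
    exact min_le_right _ _
  choose C hC1 hC2 using hch
  have hmem : ∀ ab : Fin M × Fin M, ∀ p ∈ C ab, p ∈ P ∧ u p ∈ Set.Ico (X ab.1.castSucc) (X ab.1.succ) ∧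
      v p ∈ Set.Ico (Y ab.2.castSucc) (Y ab.2.succ) := by
    intro ab p hp
    have := hC1 ab hp
    rw [Finset.mem_filter] at this
    exact this
  have hFG : ∀ ab : Fin M × Fin M, ∀ p ∈ C ab, ix X (u p) = (ab.1 : ℕ) ∧ ix Y (v p) = (ab.2 : ℕ) := by
    intro ab p hp
    obtain ⟨_, h2, h3⟩ := hmem ab p hp
    exact ⟨ix_eq hX h2, ix_eq hY h3⟩
  set P' : Finset (ℝ × ℝ) := Finset.univ.biUnion C with hP'
  have hsub : ∀ p ∈ P', p ∈ P := by
    intro p hp
    rw [hP', Finset.mem_biUnion] at hp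
    obtain ⟨ab, _, h⟩ := hp
    exact (hmem ab p h).1
  have hcard : P'.card = ∑ ab : Fin M × Fin M, min k (c ab.1 ab.2) := by
    rw [hP', Finset.card_biUnion]
    · exact Finset.sum_congr rfl fun ab _ => hC2 ab
    · intro ab _ ab' _ hne
      rw [Function.onFun, Finset.disjoint_left]
      intro p hp hp'
      apply hne
      have h1 := hFG ab p hp
      have h2 := hFG ab' p hp'
      apply Prod.ext
      · exact Fin.ext (h1.1.symm.trans h2.1)
      · exact Fin.ext (h1.2.symm.trans h2.2)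
  have key := hg P' Q (Q.filter (fun x => u x ∈ Set.Ico (X 0) (X (Fin.last M)))) (fun x => ix X (u x))
    (fun x => ix Y (v x)) k
    (fun a ha b hb d hd => hP a (hsub a ha) b (hsub b hb) d (hsub d hd))
    (fun a ha b hb => hQ a (hsub a ha) b (hsub b hb))
    (fun a ha b hb x hx => (ix_mono X).mapsTo_uIcc (hu a (hsub a ha) b (hsub b hb) x hx))
    (fun a ha b hb x hx => (ix_mono Y).mapsTo_uIcc (hv a (hsub a ha) b (hsub b hb) x hx))
    (by
      intro p hp q hq x hx hxo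
      rw [Finset.mem_filter]
      refine ⟨hx, ?_⟩
      have hpP := hsub p hp
      have hqP := hsub q hq
      rw [hP', Finset.mem_biUnion] at hp hq
      obtain ⟨ab, _, h⟩ := hp
      obtain ⟨ab', _, h'⟩ := hq
      exact (Set.ordConnected_Ico.uIcc_subset (mem_big hX (hmem ab p h).2.1) (mem_big hX (hmem ab' q h').2.1))
        (hu p hpP q hqP x hxo))
    (by
      intro p hp
      rw [hP', Finset.mem_biUnion] at hp
      obtain ⟨ab, _, h⟩ := hp
      have h2 := hFG ab p h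
      constructor
      · simp only [h2.1]; exact ab.1.isLt
      · simp only [h2.2]; exact ab.2.isLt)
    (by
      intro i hi j hj
      refine le_trans (Finset.card_le_card (t := C (⟨i, hi⟩, ⟨j, hj⟩)) ?_) ?_
      · intro p hp
        rw [Finset.mem_filter, hP', Finset.mem_biUnion] at hp
        obtain ⟨⟨ab, _, h⟩, h1, h2⟩ := hp
        have h3 := hFG ab p h
        have h4 : ab = (⟨i, hi⟩, ⟨j, hj⟩) := by
          apply Prod.ext
          · exact Fin.ext (h3.1.symm.trans h1)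
          · exact Fin.ext (h3.2.symm.trans h2)
        rw [← h4]
        exact h
      · rw [hC2]
        exact min_le_left _ _)
  refine le_trans (le_of_eq ?_) key
  have h5 : ∑ a : Fin M, ∑ b : Fin M, ((k : ℝ) - ((min k (c a b) : ℕ) : ℝ)) =
      (k : ℝ) * (M : ℝ) ^ 2 - (P'.card : ℝ) := by
    rw [hcard, Nat.cast_sum, Fintype.sum_prod_type]
    simp only [Finset.sum_sub_distrib, Finset.sum_const, Finset.card_univ, Fintype.card_fin, nsmul_eq_mul]
    ring
  rw [h5]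

theorem asm {ε : ℝ} {M : ℕ} (hM : 1 ≤ M) (hg : GridBound ε M) (hε0 : 0 ≤ ε) (hε1 : ε ≤ 1) {P Q : Finset (ℝ × ℝ)}
    (hP : GenPos P) (hQ : Blocks Q P) {u v : ℝ × ℝ → ℝ} (hu : SegMono P u) (hv : SegMono P v) {r : ℕ}
    (X Y : Fin r → Fin (M + 1) → ℝ) (m : Fin r → ℝ) (w : Fin r → Fin M → Fin M → ℝ) (τ : ℝ) (hτ : 0 ≤ τ)
    (hX : ∀ i, Monotone (X i)) (hY : ∀ i, Monotone (Y i))
    (hdis : Pairwise fun i j => Disjoint (Set.Ico (X i 0) (X i (Fin.last M))) (Set.Ico (X j 0) (X j (Fin.last M))))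
    (hm : ∀ i, 0 ≤ m i)
    (hw : ∀ i a b, (w i a b - τ) * (P.card : ℝ) ≤ ((P.filter (fun p => u p ∈ Set.Ico (X i a.castSucc) (X i a.succ) ∧
      v p ∈ Set.Ico (Y i b.castSucc) (Y i b.succ))).card : ℝ)) :
    (P.card : ℝ) * (4 * (1 - ε) * ∑ i, m i -
      8 * (∑ i, ∑ a : Fin M, ∑ b : Fin M, max 0 (m i / (M : ℝ) ^ 2 - w i a b) + (r : ℝ) * (M : ℝ) ^ 2 * τ)) -
      4 * (r : ℝ) * (M : ℝ) ^ 2 ≤ (Q.card : ℝ) := by
  classical
  set N : ℝ := (P.card : ℝ) with hN
  have hN0 : 0 ≤ N := Nat.cast_nonneg _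
  have hM0 : (0 : ℝ) < (M : ℝ) := by exact_mod_cast hM
  have hM2 : (0 : ℝ) < (M : ℝ) ^ 2 := by positivity
  -- one block
  have hone : ∀ i : Fin r, 4 * (1 - ε) * (m i * N) - 4 * (M : ℝ) ^ 2 -
      8 * (N * (∑ a : Fin M, ∑ b : Fin M, max 0 (m i / (M : ℝ) ^ 2 - w i a b) + (M : ℝ) ^ 2 * τ)) ≤
      ((Q.filter (fun x => u x ∈ Set.Ico (X i 0) (X i (Fin.last M)))).card : ℝ) := by
    intro i
    set k : ℕ := ⌊m i * N / (M : ℝ) ^ 2⌋₊ with hk
    have hq0 : 0 ≤ m i * N / (M : ℝ) ^ 2 := by have := hm i; positivity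
    have hk1 : (k : ℝ) ≤ m i * N / (M : ℝ) ^ 2 := Nat.floor_le hq0
    have hk2 : m i * N / (M : ℝ) ^ 2 < (k : ℝ) + 1 := Nat.lt_floor_add_one _
    have hk3 : m i * N < ((k : ℝ) + 1) * (M : ℝ) ^ 2 := by rwa [div_lt_iff₀ hM2] at hk2
    have key := one hg hP hQ hu hv (X i) (Y i) (hX i) (hY i) k _ (fun a b => rfl)
    refine le_trans ?_ key
    have hs : ∑ a : Fin M, ∑ b : Fin M, ((k : ℝ) - ((min k ((P.filter (fun p => u p ∈ Set.Ico (X i a.castSucc) (X i a.succ) ∧
        v p ∈ Set.Ico (Y i b.castSucc) (Y i b.succ))).card) : ℕ) : ℝ)) ≤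
        ∑ a : Fin M, ∑ b : Fin M, N * (max 0 (m i / (M : ℝ) ^ 2 - w i a b) + τ) := by
      apply Finset.sum_le_sum
      intro a _
      apply Finset.sum_le_sum
      intro b _
      have h1 := hw i a b
      have h2 : 0 ≤ max 0 (m i / (M : ℝ) ^ 2 - w i a b) := le_max_left _ _
      have h3 : m i / (M : ℝ) ^ 2 - w i a b ≤ max 0 (m i / (M : ℝ) ^ 2 - w i a b) := le_max_right _ _
      rw [Nat.cast_min]
      rcases le_total (k : ℝ) (((P.filter (fun p => u p ∈ Set.Ico (X i a.castSucc) (X i a.succ) ∧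
        v p ∈ Set.Ico (Y i b.castSucc) (Y i b.succ))).card : ℕ) : ℝ) with h | h
      · rw [min_eq_left h, sub_self]
        exact mul_nonneg hN0 (add_nonneg h2 hτ)
      · rw [min_eq_right h]
        have h4 : m i * N / (M : ℝ) ^ 2 = N * (m i / (M : ℝ) ^ 2) := by ring
        have h5 : N * (m i / (M : ℝ) ^ 2 - w i a b) ≤ N * max 0 (m i / (M : ℝ) ^ 2 - w i a b) :=
          mul_le_mul_of_nonneg_left h3 hN0
        rw [h4] at hk1
        linarith
    have hs2 : ∑ a : Fin M, ∑ b : Fin M, N * (max 0 (m i / (M : ℝ) ^ 2 - w i a b) + τ) =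
        N * (∑ a : Fin M, ∑ b : Fin M, max 0 (m i / (M : ℝ) ^ 2 - w i a b) + (M : ℝ) ^ 2 * τ) := by
      simp only [← Finset.mul_sum, Finset.sum_add_distrib, Finset.sum_const, Finset.card_univ, Fintype.card_fin,
        nsmul_eq_mul]
      ring
    rw [hs2] at hs
    have h6 : 4 * (1 - ε) * (m i * N) ≤ 4 * (1 - ε) * (((k : ℝ) + 1) * (M : ℝ) ^ 2) :=
      mul_le_mul_of_nonneg_left hk3.le (by linarith)
    have h7 : (1 - ε) * (M : ℝ) ^ 2 ≤ (M : ℝ) ^ 2 := by nlinarith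
    nlinarith [h6, h7, hs]
  -- disjoint union
  have hQs : ∑ i : Fin r, ((Q.filter (fun x => u x ∈ Set.Ico (X i 0) (X i (Fin.last M)))).card : ℝ) ≤ (Q.card : ℝ) := by
    rw [← Nat.cast_sum, ← Finset.card_biUnion]
    · exact_mod_cast Finset.card_le_card (Finset.biUnion_subset.2 fun i _ => Finset.filter_subset _ _)
    · intro i _ j _ hij
      rw [Function.onFun, Finset.disjoint_left]
      intro x hx hx'
      rw [Finset.mem_filter] at hx hx'
      exact Set.disjoint_left.1 (hdis hij) hx.2 hx'.2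
  refine le_trans ?_ hQs
  refine le_trans (le_of_eq ?_) (Finset.sum_le_sum fun i _ => hone i)
  simp only [Finset.sum_sub_distrib, Finset.sum_add_distrib, ← Finset.mul_sum, ← Finset.sum_mul, Finset.sum_const,
    Finset.card_univ, Fintype.card_fin, nsmul_eq_mul]
  ring

end Pool.Agent.Work.MP_763b10_co.AC
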