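import Pool.Agent.Work.MP_763b10_co.AC.Defs

/-!
# Choice of one blocker for each pair.  Size: S-M.

For an unordered pair `{a, b}` of points of `P` choose one blocker (e.g. a function on `Sym2 (ℝ × ℝ)`: for `z : Sym2 _` the statement
`∃ x, ∀ a b, z = s(a, b) → a ∈ P → b ∈ P → a ≠ b → x ∈ Q ∧ x ∈ openSegment ℝ a b` holds by induction on `z`, `Sym2.eq_iff` and
`openSegment_symm`; then `choose`), so `q a b = q b a`.
Injectivity: if `x = q a b = q a b'` with `b ≠ b'`, then `x = a + s (b - a)`, `x = a + t (b' - a)` with `0 < s, t < 1`, so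
`b' = a + (s/t) (b - a)` lies on the line `a b`: `{a, b, b'}` is collinear (`collinear_iff_of_mem`), contradiction to `GenPos`.
-/

namespace Pool.Agent.Work.MP_763b10_co.AC

theorem exists_blk {P Q : Finset (ℝ × ℝ)} (hP : GenPos P) (hQ : Blocks Q P) :
    ∃ q : ℝ × ℝ → ℝ × ℝ → ℝ × ℝ,
      (∀ a ∈ P, ∀ b ∈ P, a ≠ b → q a b ∈ Q ∧ q a b ∈ openSegment ℝ a b ∧ q a b = q b a) ∧
      (∀ a ∈ P, ∀ b ∈ P, ∀ b' ∈ P, a ≠ b → a ≠ b' → q a b = q a b' → b = b') := by
  have hex : ∀ z : Sym2 (ℝ × ℝ), ∃ x : ℝ × ℝ, ∀ a b, z = s(a, b) → a ∈ P → b ∈ P → a ≠ b →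
      x ∈ Q ∧ x ∈ openSegment ℝ a b := by
    intro z
    induction z using Sym2.ind with
    | _ a0 b0 =>
      by_cases h : a0 ∈ P ∧ b0 ∈ P ∧ a0 ≠ b0
      · obtain ⟨x, hx, hx2⟩ := hQ a0 h.1 b0 h.2.1 h.2.2
        refine ⟨x, ?_⟩
        intro a b hab _ _ _
        rw [Sym2.eq_iff] at hab
        rcases hab with ⟨h1, h2⟩ | ⟨h1, h2⟩
        · rw [← h1, ← h2]
          exact ⟨hx, hx2⟩
        · rw [← h1, ← h2, openSegment_symm]
          exact ⟨hx, hx2⟩
      · refine ⟨0, ?_⟩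
        intro a b hab ha hb hne
        rw [Sym2.eq_iff] at hab
        exfalso
        apply h
        rcases hab with ⟨h1, h2⟩ | ⟨h1, h2⟩
        · rw [h1, h2]
          exact ⟨ha, hb, hne⟩
        · rw [h1, h2]
          exact ⟨hb, ha, hne.symm⟩
  choose f hf using hex
  refine ⟨fun a b => f s(a, b), ?_, ?_⟩
  · intro a ha b hb hab
    obtain ⟨h1, h2⟩ := hf s(a, b) a b rfl ha hb hab
    exact ⟨h1, h2, congrArg f Sym2.eq_swap⟩
  · intro a ha b hb b' hb' hab hab' hq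
    by_contra hne
    apply hP a ha b hb b' hb' hab hab' hne
    have h1 := (hf s(a, b) a b rfl ha hb hab).2
    have h2 := (hf s(a, b') a b' rfl ha hb' hab').2
    change f s(a, b) = f s(a, b') at hq
    rw [← hq] at h2
    rw [openSegment_eq_image'] at h1 h2
    obtain ⟨u, hu, hu2⟩ := h1
    obtain ⟨t, ht, ht2⟩ := h2
    have h3 : t • (b' - a) = u • (b - a) := by
      have h4 : a + t • (b' - a) = a + u • (b - a) := by
        rw [show a + t • (b' - a) = f s(a, b) from ht2, show a + u • (b - a) = f s(a, b) from hu2]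
      exact add_left_cancel h4
    have ht0 : t ≠ 0 := ne_of_gt ht.1
    have h5 : b' - a = (t⁻¹ * u) • (b - a) := by
      rw [mul_smul, ← h3, smul_smul, inv_mul_cancel₀ ht0, one_smul]
    rw [collinear_iff_of_mem (Set.mem_insert a _)]
    refine ⟨b - a, ?_⟩
    intro p hp
    simp only [Set.mem_insert_iff, Set.mem_singleton_iff] at hp
    rcases hp with rfl | rfl | rfl
    · exact ⟨0, by simp⟩
    · exact ⟨1, by simp⟩
    · refine ⟨t⁻¹ * u, ?_⟩
      rw [← h5, vadd_eq_add, sub_add_cancel]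

end Pool.Agent.Work.MP_763b10_co.AC
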