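import Mathlib

/-!
# The defect of one cell.  Size: S-M (Mathlib only).

`ρ (J ×ˢ R) = ∫⁻ t in J, (ρ.condKernel t) R ∂ρ.fst` (disintegration: `ρ.disintegrate ρ.condKernel : ρ.fst ⊗ₘ ρ.condKernel = ρ`,
`Measure.compProd_apply`), in real numbers `ρ.real (J ×ˢ R) = ∫ t in J, (ρ.condKernel t).real R ∂ρ.fst` (see `MeasureTheory.Measure.setLIntegral_condKernel_eq_measure_prod`), and
`ρ.fst.real J / M = ∫ t in J, 1/M`.  So the difference is at most `∫ t in J, |1/M - κ_t R| ≤ δ ν(J ∩ T) + ν(J \ T)` since the integrand is at most `δ` on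
`T` and at most `1` everywhere (`0 ≤ κ_t R ≤ 1`, `0 ≤ 1/M ≤ 1`).
-/

open MeasureTheory

namespace Pool.Agent.Work.MP_763b10_co.AC

theorem cel (ρ : Measure (ℝ × ℝ)) [IsFiniteMeasure ρ] (M : ℕ) (hM : 1 ≤ M) (δ : ℝ) (hδ : 0 ≤ δ) (T J R : Set ℝ)
    (hT : MeasurableSet T) (hJ : MeasurableSet J) (hR : MeasurableSet R)
    (h : ∀ t ∈ T, |(ρ.condKernel t).real R - 1 / (M : ℝ)| ≤ δ) :
    max 0 (ρ.fst.real J / (M : ℝ) - ρ.real (J ×ˢ R)) ≤ δ * ρ.fst.real J + ρ.fst.real (J \ T) := by
  have hmeas : Measurable fun t => (ρ.condKernel t) R :=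
    ProbabilityTheory.Kernel.measurable_coe ρ.condKernel hR
  have hmeas' : Measurable fun t => (ρ.condKernel t).real R := hmeas.ennreal_toReal
  have e1 : ρ.real (J ×ˢ R) = ∫ t in J, (ρ.condKernel t).real R ∂ρ.fst := by
    rw [Measure.real, ← Measure.setLIntegral_condKernel_eq_measure_prod hJ hR, ← integral_toReal]
    · rfl
    · exact hmeas.aemeasurable
    · exact Filter.Eventually.of_forall fun t => measure_lt_top _ _
  have hM1 : 1 / (M : ℝ) ≤ 1 := by
    rw [div_le_one (by positivity)]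
    exact_mod_cast hM
  have i1 : Integrable (fun t => (ρ.condKernel t).real R) (ρ.fst.restrict J) := by
    apply Integrable.of_bound hmeas'.aestronglyMeasurable 1
    exact Filter.Eventually.of_forall fun t => by
      rw [Real.norm_of_nonneg measureReal_nonneg]
      exact measureReal_le_one
  have i2 : Integrable (fun _ : ℝ => 1 / (M : ℝ)) (ρ.fst.restrict J) := integrable_const _
  have i3 : Integrable (fun _ : ℝ => δ) (ρ.fst.restrict J) := integrable_const _
  have i4 : Integrable (Tᶜ.indicator (1 : ℝ → ℝ)) (ρ.fst.restrict J) :=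
    (integrable_const (1 : ℝ)).indicator hT.compl
  have e2 : ρ.fst.real J / (M : ℝ) = ∫ _ in J, 1 / (M : ℝ) ∂ρ.fst := by
    rw [setIntegral_const, smul_eq_mul]
    ring
  have e3 : ∫ t in J, (δ + Tᶜ.indicator (1 : ℝ → ℝ) t) ∂ρ.fst =
      δ * ρ.fst.real J + ρ.fst.real (J \ T) := by
    rw [integral_add i3 i4, setIntegral_const, integral_indicator_one hT.compl,
      measureReal_restrict_apply hT.compl, smul_eq_mul, mul_comm, Set.sdiff_eq, Set.inter_comm Tᶜ J]
  have hle : ρ.fst.real J / (M : ℝ) - ρ.real (J ×ˢ R) ≤ δ * ρ.fst.real J + ρ.fst.real (J \ T) := by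
    rw [e1, e2, ← integral_sub i2 i1, ← e3]
    apply integral_mono (i2.sub i1) (i3.add i4)
    intro t
    change 1 / (M : ℝ) - (ρ.condKernel t).real R ≤ δ + Tᶜ.indicator (1 : ℝ → ℝ) t
    by_cases ht : t ∈ T
    · have hc : t ∉ Tᶜ := fun hc => hc ht
      rw [Set.indicator_of_notMem hc]
      have h1 := (abs_le.1 (h t ht)).1
      linarith
    · rw [Set.indicator_of_mem ht]
      have h2 : 0 ≤ (ρ.condKernel t).real R := measureReal_nonneg
      change _ ≤ δ + 1
      linarith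
  refine max_le ?_ hle
  have h1 : 0 ≤ ρ.fst.real J := measureReal_nonneg
  have h2 : 0 ≤ ρ.fst.real (J \ T) := measureReal_nonneg
  positivity

end Pool.Agent.Work.MP_763b10_co.AC
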