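import Mathlib

/-!
# Columns of equal mass.  Size: M (Mathlib only).

`Φ t = ν (Ico a t)` is continuous and monotone on `[a, b]` (no atoms), `Φ a = 0`, `Φ b = ν (Ico a b)`.  For `i = 0, ..., M` take `X i ∈ [a, b]` with
`Φ (X i) = (i/M) ν (Ico a b)` (intermediate value theorem), `X 0 = a`, `X M = b`; to get a monotone `X` take for `0 < i < M` the smallest solution
`X i = sInf {t ∈ [a,b] | Φ t = (i/M) ν (Ico a b)}` (closed set), or choose `X (i+1) ∈ [X i, b]` recursively.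
-/

open MeasureTheory

namespace Pool.Agent.Work.MP_763b10_co.AC

private theorem exists_phi (ν : Measure ℝ) [IsFiniteMeasure ν] (hν : ∀ x, ν {x} = 0) (a : ℝ) :
    ∃ Φ : ℝ → ℝ, Continuous Φ ∧ Φ a = 0 ∧
      (∀ s t, a ≤ s → s ≤ t → ν.real (Set.Ico s t) = Φ t - Φ s) := by
  have : NullSingletonClass ν := ⟨hν⟩
  refine ⟨fun t => ∫ _ in a..t, (1 : ℝ) ∂ν, ?_, ?_, ?_⟩
  · exact intervalIntegral.continuous_primitive (fun _ _ => intervalIntegrable_const) a
  · simp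
  · intro s t has hst
    have h1 : (∫ _ in a..t, (1 : ℝ) ∂ν) - ∫ _ in a..s, (1 : ℝ) ∂ν = ∫ _ in s..t, (1 : ℝ) ∂ν :=
      intervalIntegral.integral_interval_sub_left intervalIntegrable_const intervalIntegrable_const
    change ν.real (Set.Ico s t) = (∫ _ in a..t, (1 : ℝ) ∂ν) - ∫ _ in a..s, (1 : ℝ) ∂ν
    rw [h1, intervalIntegral.integral_const', Set.Ioc_eq_empty (not_lt.2 hst)]
    simp only [measureReal_empty, sub_zero, smul_eq_mul, mul_one]
    exact measureReal_congr Ico_ae_eq_Ioc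

theorem colm (ν : Measure ℝ) [IsFiniteMeasure ν] (hν : ∀ x, ν {x} = 0) (a b : ℝ) (hab : a < b) (M : ℕ) (hM : 1 ≤ M) :
    ∃ X : Fin (M + 1) → ℝ, Monotone X ∧ X 0 = a ∧ X (Fin.last M) = b ∧
      ∀ i : Fin M, ν.real (Set.Ico (X i.castSucc) (X i.succ)) = ν.real (Set.Ico a b) / (M : ℝ) := by
  obtain ⟨Φ, hc, h0, hΦ⟩ := exists_phi ν hν a
  have hmono : ∀ s t, a ≤ s → s ≤ t → Φ s ≤ Φ t := by
    intro s t hs hst
    have h1 := hΦ s t hs hst
    have h2 : 0 ≤ ν.real (Set.Ico s t) := measureReal_nonneg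
    linarith
  set m := ν.real (Set.Ico a b) with hm
  have hb : Φ b = m := by
    rw [hm, hΦ a b le_rfl hab.le, h0, sub_zero]
  have hm0 : 0 ≤ m := measureReal_nonneg
  set S : ℝ → Set ℝ := fun c => {t | t ∈ Set.Icc a b ∧ c ≤ Φ t} with hS
  set T : ℝ → ℝ := fun c => sInf (S c) with hT
  have hbS : ∀ c, c ≤ m → b ∈ S c := fun c hcm =>
    ⟨Set.right_mem_Icc.2 hab.le, hcm.trans hb.ge⟩
  have hbdd : ∀ c, BddBelow (S c) := fun c => ⟨a, fun t ht => ht.1.1⟩
  have hclosed : ∀ c, IsClosed (S c) := fun c =>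
    isClosed_Icc.inter (isClosed_le continuous_const hc)
  have hTm : ∀ c, c ≤ m → T c ∈ S c := fun c hcm =>
    (hclosed c).csInf_mem ⟨b, hbS c hcm⟩ (hbdd c)
  have hTΦ : ∀ c, 0 ≤ c → c ≤ m → Φ (T c) = c := by
    intro c hc0 hcm
    apply le_antisymm _ (hTm c hcm).2
    obtain ⟨t, ht, e⟩ := intermediate_value_Icc hab.le hc.continuousOn
      (show c ∈ Set.Icc (Φ a) (Φ b) from ⟨h0.le.trans hc0, hcm.trans hb.ge⟩)
    have h1 : T c ≤ t := csInf_le (hbdd c) ⟨ht, e.ge⟩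
    calc Φ (T c) ≤ Φ t := hmono _ _ (hTm c hcm).1.1 h1
      _ = c := e
  have hTmono : ∀ c c', c ≤ c' → c' ≤ m → T c ≤ T c' := by
    intro c c' hcc hcm
    exact csInf_le_csInf (hbdd c) ⟨b, hbS c' hcm⟩ fun t ht => ⟨ht.1, hcc.trans ht.2⟩
  have hT0 : T 0 = a := by
    apply le_antisymm
    · exact csInf_le (hbdd 0) ⟨Set.left_mem_Icc.2 hab.le, h0.ge⟩
    · exact (hTm 0 hm0).1.1
  have hM0 : (0 : ℝ) < M := by exact_mod_cast hM
  have hfr : ∀ i : ℕ, i ≤ M → 0 ≤ (i : ℝ) / M * m ∧ (i : ℝ) / M * m ≤ m := by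
    intro i hi
    have h1 : (i : ℝ) / M ≤ 1 := by
      rw [div_le_one hM0]
      exact_mod_cast hi
    exact ⟨by positivity, mul_le_of_le_one_left hm0 h1⟩
  set X : Fin (M + 1) → ℝ := fun i => if i.1 = M then b else T ((i.1 : ℝ) / M * m) with hX
  have hXΦ : ∀ i : Fin (M + 1), Φ (X i) = (i.1 : ℝ) / M * m := by
    intro i
    have hi : i.1 ≤ M := Nat.lt_succ_iff.1 i.2
    by_cases h : i.1 = M
    · simp only [hX, h, if_true]
      rw [hb, div_self hM0.ne', one_mul]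
    · simp only [hX, h, if_false]
      exact hTΦ _ (hfr i.1 hi).1 (hfr i.1 hi).2
  have hXm : ∀ i : Fin (M + 1), X i ∈ Set.Icc a b := by
    intro i
    have hi : i.1 ≤ M := Nat.lt_succ_iff.1 i.2
    by_cases h : i.1 = M
    · simp only [hX, h, if_true]
      exact Set.right_mem_Icc.2 hab.le
    · simp only [hX, h, if_false]
      exact (hTm _ (hfr i.1 hi).2).1
  have hXmono : Monotone X := by
    intro i j hij
    by_cases h : j.1 = M
    · have h1 : X j = b := by simp only [hX, h, if_true]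
      rw [h1]
      exact (hXm i).2
    · have hj : j.1 ≤ M := Nat.lt_succ_iff.1 j.2
      have hij' : i.1 ≤ j.1 := hij
      have h2 : i.1 ≠ M := by omega
      simp only [hX, h, h2, if_false]
      apply hTmono _ _ _ (hfr j.1 hj).2
      have h3 : (i.1 : ℝ) ≤ j.1 := by exact_mod_cast hij'
      gcongr
  refine ⟨X, hXmono, ?_, ?_, ?_⟩
  · have h1 : (0 : Fin (M + 1)).1 ≠ M := by
      rw [Fin.val_zero]
      omega
    simp only [hX, h1, if_false]
    rw [Fin.val_zero, Nat.cast_zero, zero_div, zero_mul, hT0]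
  · simp only [hX, Fin.val_last, if_true]
  · intro i
    rw [hΦ _ _ (hXm _).1 (hXmono (Fin.castSucc_lt_succ).le), hXΦ, hXΦ]
    rw [Fin.val_succ, Fin.val_castSucc, Nat.cast_add, Nat.cast_one]
    ring

end Pool.Agent.Work.MP_763b10_co.AC
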