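import Pool.Agent.Work.MP_763b10_co.AC.Sums

/-!
# Lower bound for the energy.  Size: M.

Let `n c` be the number of points in the cell `c ∈ range M × range M`, `w c c' = K2 c.1 c'.1 * K2 c.2 c'.2`.
`∑ p ∈ P, ∑ p' ∈ P.erase p, K2 .. = ∑ p, ∑ p' ∈ P, K2 .. - ∑ p ∈ P, 1/4` (`K2 i i = 1/2`), `|P| ≤ k M²`, and
`∑ p, ∑ p' ∈ P, K2 .. = ∑ c, ∑ c', n c * n c' * w c c'` (group by cells).  As `0 ≤ n c ≤ k`:
`n c * n c' ≥ k² - k (k - n c) - k (k - n c')` (the difference is `(k - n c)(k - n c') ≥ 0`).  Further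
`∑ c c', w c c' = (∑ i, ∑ j, K2 i j)²`, `∑ c', w c c' ≤ (2 HH M)²` (`K2 ≤ K1` and `sumK1_le`, `K1`, `K2` symmetric) and
`∑ c, (k - n c) = k M² - |P|`.
-/

namespace Pool.Agent.Work.MP_763b10_co.AC

private theorem K2_nonneg (i j : ℕ) : 0 ≤ K2 i j := by
  unfold K2; positivity

private theorem K2_le_K1 (i j : ℕ) : K2 i j ≤ K1 i j := by
  unfold K2 K1
  have h := abs_nonneg ((i : ℝ) - (j : ℝ))
  apply inv_anti₀ (by positivity)
  linarith

private theorem K2_comm (i j : ℕ) : K2 i j = K2 j i := by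
  unfold K2; rw [abs_sub_comm]

private theorem K2_self (i : ℕ) : K2 i i = 1 / 2 := by
  unfold K2; norm_num

private theorem sumK2_le (M a : ℕ) : ∑ j ∈ Finset.range M, K2 a j ≤ 2 * HH M := by
  refine le_trans ?_ (sumK1_le M a)
  apply Finset.sum_le_sum
  intro j _
  rw [K2_comm]
  exact K2_le_K1 j a

private theorem sumK2_nonneg (M a : ℕ) : 0 ≤ ∑ j ∈ Finset.range M, K2 a j :=
  Finset.sum_nonneg (fun j _ => K2_nonneg a j)

private theorem sum_cells {P : Finset (ℝ × ℝ)} {c : ℝ × ℝ → ℕ × ℕ} {R : Finset (ℕ × ℕ)}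
    (h : ∀ p ∈ P, c p ∈ R) (f : ℕ × ℕ → ℝ) :
    ∑ p ∈ P, f (c p) = ∑ x ∈ R, ((P.filter (fun p => c p = x)).card : ℝ) * f x := by
  rw [← Finset.sum_fiberwise_of_maps_to h]
  apply Finset.sum_congr rfl
  intro x _
  rw [Finset.sum_congr rfl (g := fun _ => f x)]
  · rw [Finset.sum_const, nsmul_eq_mul]
  · intro p hp
    rw [(Finset.mem_filter.1 hp).2]

private theorem sum_w (M : ℕ) (x : ℕ × ℕ) :
    ∑ y ∈ Finset.range M ×ˢ Finset.range M, K2 x.1 y.1 * K2 x.2 y.2 =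
      (∑ j ∈ Finset.range M, K2 x.1 j) * (∑ j ∈ Finset.range M, K2 x.2 j) := by
  rw [Finset.sum_product, Finset.sum_mul_sum]

private theorem sum_ww (M : ℕ) :
    ∑ x ∈ Finset.range M ×ˢ Finset.range M, ∑ y ∈ Finset.range M ×ˢ Finset.range M, K2 x.1 y.1 * K2 x.2 y.2 =
      (∑ i ∈ Finset.range M, ∑ j ∈ Finset.range M, K2 i j) ^ 2 := by
  rw [Finset.sum_congr rfl (fun x _ => sum_w M x), Finset.sum_product, sq, Finset.sum_mul_sum]

theorem low {P : Finset (ℝ × ℝ)} {F G : ℝ × ℝ → ℕ} {M k : ℕ} (hM : ∀ p ∈ P, F p < M ∧ G p < M)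
    (hk : ∀ i < M, ∀ j < M, (P.filter (fun p => F p = i ∧ G p = j)).card ≤ k) :
    (k : ℝ) ^ 2 * (∑ i ∈ Finset.range M, ∑ j ∈ Finset.range M, K2 i j) ^ 2 -
        2 * (k : ℝ) * ((k : ℝ) * (M : ℝ) ^ 2 - (P.card : ℝ)) * (2 * HH M) ^ 2 - (k : ℝ) * (M : ℝ) ^ 2 / 4 ≤
      ∑ p ∈ P, ∑ p' ∈ P.erase p, K2 (F p) (F p') * K2 (G p) (G p') := by
  set R := Finset.range M ×ˢ Finset.range M with hR
  set c : ℝ × ℝ → ℕ × ℕ := fun p => (F p, G p) with hc
  set n : ℕ × ℕ → ℝ := fun x => ((P.filter (fun p => c p = x)).card : ℝ) with hn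
  set w : ℕ × ℕ → ℕ × ℕ → ℝ := fun x y => K2 x.1 y.1 * K2 x.2 y.2 with hw
  have hcR : ∀ p ∈ P, c p ∈ R := fun p hp => Finset.mem_product.2
    ⟨Finset.mem_range.2 (hM p hp).1, Finset.mem_range.2 (hM p hp).2⟩
  have hnk : ∀ x ∈ R, n x ≤ k := by
    intro x hx
    have h1 := hk x.1 (Finset.mem_range.1 (Finset.mem_product.1 hx).1) x.2
      (Finset.mem_range.1 (Finset.mem_product.1 hx).2)
    have h2 : (P.filter (fun p => c p = x)) = P.filter (fun p => F p = x.1 ∧ G p = x.2) := by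
      apply Finset.filter_congr
      intro p _
      simp only [hc, Prod.ext_iff]
    simp only [hn, h2]
    exact_mod_cast h1
  have hn0 : ∀ x, 0 ≤ n x := fun x => Nat.cast_nonneg _
  have hw0 : ∀ x y, 0 ≤ w x y := fun x y => mul_nonneg (K2_nonneg _ _) (K2_nonneg _ _)
  have hcard : (P.card : ℝ) = ∑ x ∈ R, n x := by
    have h1 := sum_cells hcR (fun _ => (1 : ℝ))
    simp only [Finset.sum_const, nsmul_eq_mul, mul_one] at h1
    exact h1
  have hRc : ∑ _x ∈ R, (k : ℝ) = (k : ℝ) * (M : ℝ) ^ 2 := by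
    rw [Finset.sum_const, nsmul_eq_mul, hR, Finset.card_product, Finset.card_range]
    push_cast; ring
  have hPk : (P.card : ℝ) ≤ (k : ℝ) * (M : ℝ) ^ 2 := by
    rw [hcard, ← hRc]; exact Finset.sum_le_sum hnk
  -- the erased sum
  have herase : ∑ p ∈ P, ∑ p' ∈ P.erase p, K2 (F p) (F p') * K2 (G p) (G p') =
      ∑ p ∈ P, ∑ p' ∈ P, w (c p) (c p') - (P.card : ℝ) / 4 := by
    have h1 : ∀ p ∈ P, ∑ p' ∈ P.erase p, K2 (F p) (F p') * K2 (G p) (G p') =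
        ∑ p' ∈ P, w (c p) (c p') - 1 / 4 := by
      intro p hp
      have h2 := Finset.add_sum_erase P (fun p' => w (c p) (c p')) hp
      have h3 : w (c p) (c p) = 1 / 4 := by
        simp only [hw, K2_self]; norm_num
      simp only [h3] at h2
      rw [← h2]
      simp only [hw, hc]
      ring
    rw [Finset.sum_congr rfl h1, Finset.sum_sub_distrib, Finset.sum_const, nsmul_eq_mul]
    ring
  have hS : ∑ p ∈ P, ∑ p' ∈ P, w (c p) (c p') = ∑ x ∈ R, ∑ y ∈ R, n x * n y * w x y := by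
    have h1 : ∀ p ∈ P, ∑ p' ∈ P, w (c p) (c p') = ∑ y ∈ R, n y * w (c p) y :=
      fun p _ => sum_cells hcR (fun y => w (c p) y)
    rw [Finset.sum_congr rfl h1, sum_cells hcR (fun x => ∑ y ∈ R, n y * w x y)]
    apply Finset.sum_congr rfl
    intro x _
    rw [Finset.mul_sum]
    apply Finset.sum_congr rfl
    intro y _
    simp only [hn]; ring
  have hlow : ∀ x ∈ R, ∀ y ∈ R, ((k : ℝ) ^ 2 - k * (k - n x) - k * (k - n y)) * w x y ≤ n x * n y * w x y := by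
    intro x hx y hy
    apply mul_le_mul_of_nonneg_right _ (hw0 x y)
    nlinarith [mul_nonneg (sub_nonneg.2 (hnk x hx)) (sub_nonneg.2 (hnk y hy))]
  have hww : ∑ x ∈ R, ∑ y ∈ R, w x y = (∑ i ∈ Finset.range M, ∑ j ∈ Finset.range M, K2 i j) ^ 2 := sum_ww M
  have hws : ∀ x, ∑ y ∈ R, w x y ≤ (2 * HH M) ^ 2 := by
    intro x
    rw [show ∑ y ∈ R, w x y = (∑ j ∈ Finset.range M, K2 x.1 j) * (∑ j ∈ Finset.range M, K2 x.2 j) from sum_w M x, sq]
    exact mul_le_mul (sumK2_le M _) (sumK2_le M _) (sumK2_nonneg M _)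
      ((sumK2_nonneg M _).trans (sumK2_le M x.1))
  have hwsym : ∀ x y, w x y = w y x := by
    intro x y; simp only [hw]; rw [K2_comm x.1, K2_comm x.2]
  have hk0 : (0 : ℝ) ≤ k := Nat.cast_nonneg k
  have hA : ∑ x ∈ R, ∑ y ∈ R, (k * (k - n x)) * w x y ≤ (k : ℝ) * ((k : ℝ) * (M : ℝ) ^ 2 - (P.card : ℝ)) * (2 * HH M) ^ 2 := by
    have h1 : ∀ x ∈ R, ∑ y ∈ R, (k * (k - n x)) * w x y ≤ (k * (k - n x)) * (2 * HH M) ^ 2 := by
      intro x hx
      rw [← Finset.mul_sum]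
      exact mul_le_mul_of_nonneg_left (hws x) (mul_nonneg hk0 (sub_nonneg.2 (hnk x hx)))
    refine (Finset.sum_le_sum h1).trans (le_of_eq ?_)
    rw [← Finset.sum_mul, ← Finset.mul_sum, Finset.sum_sub_distrib, hRc, ← hcard]
  have hB : ∑ x ∈ R, ∑ y ∈ R, (k * (k - n y)) * w x y ≤ (k : ℝ) * ((k : ℝ) * (M : ℝ) ^ 2 - (P.card : ℝ)) * (2 * HH M) ^ 2 := by
    rw [Finset.sum_comm]
    refine le_trans (le_of_eq ?_) hA
    apply Finset.sum_congr rfl
    intro x _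
    apply Finset.sum_congr rfl
    intro y _
    rw [hwsym]
  have hC : ∑ x ∈ R, ∑ y ∈ R, ((k : ℝ) ^ 2 - k * (k - n x) - k * (k - n y)) * w x y =
      (k : ℝ) ^ 2 * (∑ i ∈ Finset.range M, ∑ j ∈ Finset.range M, K2 i j) ^ 2 -
        ∑ x ∈ R, ∑ y ∈ R, (k * (k - n x)) * w x y - ∑ x ∈ R, ∑ y ∈ R, (k * (k - n y)) * w x y := by
    rw [← hww, Finset.mul_sum, ← Finset.sum_sub_distrib, ← Finset.sum_sub_distrib]
    apply Finset.sum_congr rfl
    intro x _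
    rw [Finset.mul_sum, ← Finset.sum_sub_distrib, ← Finset.sum_sub_distrib]
    apply Finset.sum_congr rfl
    intro y _
    ring
  have hD : ∑ x ∈ R, ∑ y ∈ R, ((k : ℝ) ^ 2 - k * (k - n x) - k * (k - n y)) * w x y ≤
      ∑ x ∈ R, ∑ y ∈ R, n x * n y * w x y :=
    Finset.sum_le_sum (fun x hx => Finset.sum_le_sum (fun y hy => hlow x hx y hy))
  rw [herase, hS]
  linarith

end Pool.Agent.Work.MP_763b10_co.AC
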