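import Pool.Agent.Work.MP_763b10_co.AC.Sums

/-!
# Upper bound for the potential.  Size: S-M.

Group the points of `P` by their cell `(F p, G p) ∈ range M × range M` (`Finset.sum_fiberwise_of_maps_to` or
`Finset.sum_comp`-like): `∑ p ∈ P, f (F p) (G p) = ∑ i < M, ∑ j < M, #cell(i,j) * f i j ≤ k * ∑ i, ∑ j, K1 i a * K1 j b
= k * (∑ i, K1 i a) * (∑ j, K1 j b) ≤ k * (2 HH M)²` by `sumK1_le` (all terms `≥ 0`).
-/

namespace Pool.Agent.Work.MP_763b10_co.AC

private theorem K1_nn (i j : ℕ) : 0 ≤ K1 i j := by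
  unfold K1
  positivity

theorem upp {P : Finset (ℝ × ℝ)} {F G : ℝ × ℝ → ℕ} {M k : ℕ} (hM : ∀ p ∈ P, F p < M ∧ G p < M)
    (hk : ∀ i < M, ∀ j < M, (P.filter (fun p => F p = i ∧ G p = j)).card ≤ k) (a b : ℕ) :
    ∑ p ∈ P, K1 (F p) a * K1 (G p) b ≤ (k : ℝ) * (2 * HH M) ^ 2 := by
  classical
  have h1 : ∀ p ∈ P, (fun p => (F p, G p)) p ∈ Finset.range M ×ˢ Finset.range M := by
    intro p hp
    rw [Finset.mem_product, Finset.mem_range, Finset.mem_range]
    exact hM p hp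
  rw [← Finset.sum_fiberwise_of_maps_to h1]
  have h2 : ∀ y ∈ Finset.range M ×ˢ Finset.range M,
      ∑ p ∈ P.filter (fun p => (F p, G p) = y), K1 (F p) a * K1 (G p) b ≤
        (k : ℝ) * (K1 y.1 a * K1 y.2 b) := by
    intro y hy
    rw [Finset.mem_product, Finset.mem_range, Finset.mem_range] at hy
    have h3 : ∑ p ∈ P.filter (fun p => (F p, G p) = y), K1 (F p) a * K1 (G p) b =
        ∑ p ∈ P.filter (fun p => (F p, G p) = y), K1 y.1 a * K1 y.2 b := by
      refine Finset.sum_congr rfl fun p hp => ?_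
      rw [Finset.mem_filter] at hp
      rw [← hp.2]
    have h4 : P.filter (fun p => (F p, G p) = y) =
        P.filter (fun p => F p = y.1 ∧ G p = y.2) := by
      refine Finset.filter_congr fun p _ => ?_
      exact Prod.ext_iff
    rw [h3, Finset.sum_const, nsmul_eq_mul, h4]
    refine mul_le_mul_of_nonneg_right ?_ (mul_nonneg (K1_nn _ _) (K1_nn _ _))
    exact_mod_cast hk y.1 hy.1 y.2 hy.2
  refine (Finset.sum_le_sum h2).trans ?_
  rw [← Finset.mul_sum, Finset.sum_product]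
  have h5 : ∑ i ∈ Finset.range M, ∑ j ∈ Finset.range M, K1 i a * K1 j b =
      (∑ i ∈ Finset.range M, K1 i a) * ∑ j ∈ Finset.range M, K1 j b := by
    rw [Finset.sum_mul_sum]
  dsimp only
  rw [h5]
  refine mul_le_mul_of_nonneg_left ?_ (Nat.cast_nonneg k)
  rw [sq]
  have h6 := sumK1_le M a
  have h7 := sumK1_le M b
  have h8 : 0 ≤ ∑ i ∈ Finset.range M, K1 i a := Finset.sum_nonneg fun _ _ => K1_nn _ _
  have h9 : 0 ≤ ∑ j ∈ Finset.range M, K1 j b := Finset.sum_nonneg fun _ _ => K1_nn _ _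
  exact mul_le_mul h6 h7 h9 (h8.trans h6)

end Pool.Agent.Work.MP_763b10_co.AC
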