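import Pool.Agent.Work.MP_763b10_co.AC.Ene
import Pool.Agent.Work.MP_763b10_co.AC.Upp
import Pool.Agent.Work.MP_763b10_co.AC.Low

/-!
# The grid lemma.  Size: M.

Let `H = HH M`, `A = ∑ i, ∑ j, K2 i j`.  If `k = 0` then `P` is empty (every point is in a cell) and the claim is `0 ≤ |Q'|`.
For `k ≥ 1`: `ene`, `upp` and `low` give `4 (k² A² - 2 k (k M² - |P|) (2H)² - k M²/4) ≤ |Q'| k (2H)²`, hence (`H > 0`)
`|Q'| ≥ 4 k A² / (2H)² - 8 (k M² - |P|) - M² / (2H)²`.  With `A ≥ 2 M H - 5 M` and `H ≥ 5/2`: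
`A²/(2H)² ≥ M² (1 - 5/(2H))² ≥ M² (1 - 5/H)`, so `|Q'| ≥ 4 k M² (1 - 5/H) - M²/(4H²) - 8 (k M² - |P|)` and it is enough that
`20/H + 1/(4H²) ≤ 4 ε` (`k ≥ 1`); such an `M ≥ 1` exists by `HH_tendsto`.
-/

namespace Pool.Agent.Work.MP_763b10_co.AC

theorem core (ε : ℝ) (hε : 0 < ε) : ∃ M : ℕ, 1 ≤ M ∧ GridBound ε M := by
  obtain ⟨M, hM1, hM⟩ : ∃ M : ℕ, 1 ≤ M ∧ max (5 / 2) (5 / ε) ≤ HH M := by
    have h1 := (HH_tendsto.eventually_ge_atTop (max (5 / 2) (5 / ε))).and (Filter.eventually_ge_atTop 1)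
    obtain ⟨M, h2, h3⟩ := h1.exists
    exact ⟨M, h3, h2⟩
  have hH1 : 5 / 2 ≤ HH M := le_trans (le_max_left _ _) hM
  have hH2 : 5 / ε ≤ HH M := le_trans (le_max_right _ _) hM
  have hH3 : 5 ≤ ε * HH M := by
    have := (div_le_iff₀ hε).1 hH2
    linarith [mul_comm ε (HH M)]
  refine ⟨M, hM1, ?_⟩
  intro P Q Q' F G k hP hQ hF hG hQ' hb hk
  rcases Nat.eq_zero_or_pos k with hk0 | hk0
  · subst hk0
    have hPe : P = ∅ := by
      rw [Finset.eq_empty_iff_forall_notMem]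
      intro p hp
      have h1 := hk (F p) (hb p hp).1 (G p) (hb p hp).2
      have h2 := Finset.card_eq_zero.1 (Nat.le_zero.1 h1)
      have h3 : p ∈ P.filter (fun q => F q = F p ∧ G q = G p) := by
        simp [hp]
      rw [h2] at h3
      simp at h3
    subst hPe
    have : (0 : ℝ) ≤ (Q'.card : ℝ) := Nat.cast_nonneg _
    simp
  · have h1 := ene hP hQ hF hG hQ'
    have h2 := low hb hk
    have h3 : ∑ x ∈ Q', ∑ p ∈ P, K1 (F p) (F x) * K1 (G p) (G x) ≤ (Q'.card : ℝ) * ((k : ℝ) * (2 * HH M) ^ 2) := by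
      have h4 : ∀ x ∈ Q', ∑ p ∈ P, K1 (F p) (F x) * K1 (G p) (G x) ≤ (k : ℝ) * (2 * HH M) ^ 2 :=
        fun x _ => upp hb hk (F x) (G x)
      have h5 := Finset.sum_le_card_nsmul Q' _ _ h4
      simpa [nsmul_eq_mul] using h5
    have h6 := sumK2_ge M
    set H := HH M with hHdef
    set A := ∑ i ∈ Finset.range M, ∑ j ∈ Finset.range M, K2 i j with hA
    set N : ℝ := (Q'.card : ℝ) with hN
    set c : ℝ := (P.card : ℝ) with hc
    have hkR : (1 : ℝ) ≤ (k : ℝ) := by exact_mod_cast hk0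
    have hMR : (0 : ℝ) ≤ (M : ℝ) := Nat.cast_nonneg _
    set κ : ℝ := (k : ℝ) with hκ
    set m : ℝ := (M : ℝ) with hm
    have hHpos : 0 < H := by linarith
    have h7 : 4 * (κ ^ 2 * A ^ 2 - 2 * κ * (κ * m ^ 2 - c) * (2 * H) ^ 2 - κ * m ^ 2 / 4) ≤
        N * (κ * (2 * H) ^ 2) := by linarith
    have h8 : 4 * (κ * A ^ 2 - 2 * (κ * m ^ 2 - c) * (2 * H) ^ 2 - m ^ 2 / 4) ≤ N * (2 * H) ^ 2 := by
      have h9 : κ * (4 * (κ * A ^ 2 - 2 * (κ * m ^ 2 - c) * (2 * H) ^ 2 - m ^ 2 / 4)) ≤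
          κ * (N * (2 * H) ^ 2) := by
        have e1 : κ * (4 * (κ * A ^ 2 - 2 * (κ * m ^ 2 - c) * (2 * H) ^ 2 - m ^ 2 / 4)) =
          4 * (κ ^ 2 * A ^ 2 - 2 * κ * (κ * m ^ 2 - c) * (2 * H) ^ 2 - κ * m ^ 2 / 4) := by ring
        have e2 : κ * (N * (2 * H) ^ 2) = N * (κ * (2 * H) ^ 2) := by ring
        rw [e1, e2]
        exact h7
      exact le_of_mul_le_mul_left h9 (by linarith)
    have h10 : (m * (2 * H - 5)) ^ 2 ≤ A ^ 2 := by
      apply pow_le_pow_left₀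
      · apply mul_nonneg hMR
        linarith
      · have e : m * (2 * H - 5) = 2 * m * H - 5 * m := by ring
        rw [e]
        exact h6
    have h11 : κ * (m * (2 * H - 5)) ^ 2 ≤ κ * A ^ 2 := mul_le_mul_of_nonneg_left h10 (by linarith)
    have h12 : 0 ≤ m ^ 2 * (4 * κ * (4 * (ε * H) * H - 20 * H + 25) - 1) := by
      apply mul_nonneg (sq_nonneg _)
      have h13 : 5 * H ≤ (ε * H) * H := mul_le_mul_of_nonneg_right hH3 hHpos.le
      have h14 : 25 ≤ 4 * (ε * H) * H - 20 * H + 25 := by linarith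
      have h15 : κ * 25 ≤ κ * (4 * (ε * H) * H - 20 * H + 25) := mul_le_mul_of_nonneg_left h14 (by linarith)
      linarith
    have h16 : (4 * (1 - ε) * κ * m ^ 2 - 8 * (κ * m ^ 2 - c)) * (2 * H) ^ 2 ≤ N * (2 * H) ^ 2 := by
      have e3 : (4 * (1 - ε) * κ * m ^ 2 - 8 * (κ * m ^ 2 - c)) * (2 * H) ^ 2 =
        4 * (κ * (m * (2 * H - 5)) ^ 2 - 2 * (κ * m ^ 2 - c) * (2 * H) ^ 2 - m ^ 2 / 4) -
          m ^ 2 * (4 * κ * (4 * (ε * H) * H - 20 * H + 25) - 1) := by ring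
      rw [e3]
      linarith
    have h17 : (0 : ℝ) < (2 * H) ^ 2 := by positivity
    exact le_of_mul_le_mul_right h16 h17

end Pool.Agent.Work.MP_763b10_co.AC
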