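import Mathlib

/-!
# Blocking sets and continuous fibres: definitions (FIXED)

`GenPos P`: no three points of `P` are collinear.  `Blocks Q P`: every open segment between two points of `P` contains
a point of `Q`.  `K1`, `K2` are the two kernels on indices, `HH` the harmonic numbers.
-/

namespace Pool.Agent.Work.MP_763b10_co.AC

/-- No three points of `P` lie on a line. -/
def GenPos (P : Finset (ℝ × ℝ)) : Prop :=
  ∀ a ∈ P, ∀ b ∈ P, ∀ c ∈ P, a ≠ b → a ≠ c → b ≠ c → ¬ Collinear ℝ ({a, b, c} : Set (ℝ × ℝ))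

/-- Every open segment between two points of `P` contains a point of `Q`. -/
def Blocks (Q P : Finset (ℝ × ℝ)) : Prop :=
  ∀ p ∈ P, ∀ q ∈ P, p ≠ q → ∃ x ∈ Q, x ∈ openSegment ℝ p q

/-- `u` is monotone along the segments between points of `P`. -/
def SegMono {α : Type*} [Lattice α] (P : Finset (ℝ × ℝ)) (u : ℝ × ℝ → α) : Prop :=
  ∀ p ∈ P, ∀ q ∈ P, ∀ x ∈ openSegment ℝ p q, u x ∈ Set.uIcc (u p) (u q)

/-- `1 / (|i - j| + 1)` -/
noncomputable def K1 (i j : ℕ) : ℝ := (|(i : ℝ) - (j : ℝ)| + 1)⁻¹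

/-- `1 / (|i - j| + 2)` -/
noncomputable def K2 (i j : ℕ) : ℝ := (|(i : ℝ) - (j : ℝ)| + 2)⁻¹

/-- The harmonic number `1 + 1/2 + ... + 1/M`. -/
noncomputable def HH (M : ℕ) : ℝ := ∑ i ∈ Finset.range M, ((i : ℝ) + 1)⁻¹

/-- The conclusion of the grid lemma: a set `P` in general position with at most `k` points in each cell of an
`M × M` grid (given by two functions which are monotone along segments) needs at least
`4 (1 - ε) k M² - 8 (k M² - |P|)` blockers. -/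
def GridBound (ε : ℝ) (M : ℕ) : Prop :=
  ∀ (P Q Q' : Finset (ℝ × ℝ)) (F G : ℝ × ℝ → ℕ) (k : ℕ), GenPos P → Blocks Q P → SegMono P F → SegMono P G →
    (∀ p ∈ P, ∀ q ∈ P, ∀ x ∈ Q, x ∈ openSegment ℝ p q → x ∈ Q') →
    (∀ p ∈ P, F p < M ∧ G p < M) →
    (∀ i < M, ∀ j < M, (P.filter (fun p => F p = i ∧ G p = j)).card ≤ k) →
    4 * (1 - ε) * (k : ℝ) * (M : ℝ) ^ 2 - 8 * ((k : ℝ) * (M : ℝ) ^ 2 - (P.card : ℝ)) ≤ (Q'.card : ℝ)

end Pool.Agent.Work.MP_763b10_co.AC
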