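import Pool.Agent.Work.MP_763b10_co.AC.Defs

/-!
# The kernel inequality.  Size: S-M.

`kin`: by AM-GM the right side is at least `2 / sqrt ((a₁+1)(a₂+1)(b₁+1)(b₂+1))`, and `(a₁+1)(a₂+1) ≤ ((a₁+a₂+2)/2)²`,
`(b₁+1)(b₂+1) ≤ ((b₁+b₂+2)/2)²`.
(Without square roots: with `x = a₁+1, y = a₂+1, z = b₁+1, w = b₂+1 > 0` the claim is `8 x y z w ≤ (x+y)(z+w)(x z + y w)`; and
`(x+y)(z+w)(xz+yw) - 8xyzw ≥ 0` because `(x+y)(z+w) = (xz+yw) + (xw+yz)`, `xz+yw ≥ 2√(xyzw)`, `xw+yz ≥ 2√(xyzw)`; e.g. with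
`A = xz`, `B = yw`, `C = xw`, `D = yz`, `AB = CD`: `(A+B+C+D)(A+B) ≥ 8AB` from `(A+B)² ≥ 4AB` and `(C+D)(A+B) ≥ 4AB`,
the last one since `(C+D)²(A+B)² ≥ 16 (AB)²`.)
`K_between`: if `k` lies between `i` and `j` then `|i-k| + |j-k| = |i-j|`, and the same for `i', j', k'`.
-/

namespace Pool.Agent.Work.MP_763b10_co.AC

private theorem kin_key {x y z w : ℝ} (hx : 0 < x) (hy : 0 < y) (hz : 0 < z) (hw : 0 < w) :
    8 * (x * y * z * w) ≤ (x + y) * (z + w) * (x * z + y * w) := by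
  have hs : 0 < x * z + y * w := by positivity
  have ht : 0 < x * w + y * z := by positivity
  have hp : 0 < x * y * z * w := by positivity
  have h1 : 4 * (x * y * z * w) ≤ (x * z + y * w) ^ 2 := by nlinarith [sq_nonneg (x * z - y * w)]
  have h2 : 4 * (x * y * z * w) ≤ (x * w + y * z) ^ 2 := by nlinarith [sq_nonneg (x * w - y * z)]
  have h3 : (4 * (x * y * z * w)) ^ 2 ≤ ((x * z + y * w) * (x * w + y * z)) ^ 2 := by
    rw [mul_pow (x * z + y * w), sq (4 * (x * y * z * w))]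
    exact mul_le_mul h1 h2 (by positivity) (by positivity)
  have h4 : 4 * (x * y * z * w) ≤ (x * z + y * w) * (x * w + y * z) :=
    (le_abs_self _).trans (abs_le_of_sq_le_sq h3 (by positivity))
  nlinarith [h1, h4]

theorem kin {a₁ a₂ b₁ b₂ : ℝ} (h₁ : 0 ≤ a₁) (h₂ : 0 ≤ a₂) (h₃ : 0 ≤ b₁) (h₄ : 0 ≤ b₂) :
    8 * ((a₁ + a₂ + 2)⁻¹ * (b₁ + b₂ + 2)⁻¹) ≤ (a₁ + 1)⁻¹ * (b₁ + 1)⁻¹ + (a₂ + 1)⁻¹ * (b₂ + 1)⁻¹ := by
  have hx : 0 < a₁ + 1 := by linarith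
  have hy : 0 < a₂ + 1 := by linarith
  have hz : 0 < b₁ + 1 := by linarith
  have hw : 0 < b₂ + 1 := by linarith
  have hk := kin_key hx hy hz hw
  have e1 : 8 * ((a₁ + a₂ + 2)⁻¹ * (b₁ + b₂ + 2)⁻¹)
      = 8 / (((a₁ + 1) + (a₂ + 1)) * ((b₁ + 1) + (b₂ + 1))) := by
    rw [← mul_inv, div_eq_mul_inv]
    ring_nf
  have e2 : (a₁ + 1)⁻¹ * (b₁ + 1)⁻¹ + (a₂ + 1)⁻¹ * (b₂ + 1)⁻¹
      = ((a₁ + 1) * (b₁ + 1) + (a₂ + 1) * (b₂ + 1)) /
        ((a₁ + 1) * (a₂ + 1) * (b₁ + 1) * (b₂ + 1)) := by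
    field_simp
    ring
  rw [e1, e2, div_le_div_iff₀ (by positivity) (by positivity)]
  nlinarith [hk]

private theorem abs_between {i j k : ℕ} (h : k ∈ Set.uIcc i j) :
    |(i : ℝ) - (j : ℝ)| = |(i : ℝ) - (k : ℝ)| + |(j : ℝ) - (k : ℝ)| := by
  rcases Set.mem_uIcc.1 h with ⟨h1, h2⟩ | ⟨h1, h2⟩
  · have h1' : (i : ℝ) ≤ (k : ℝ) := by exact_mod_cast h1
    have h2' : (k : ℝ) ≤ (j : ℝ) := by exact_mod_cast h2
    rw [abs_of_nonpos (by linarith), abs_of_nonpos (by linarith), abs_of_nonneg (by linarith)]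
    ring
  · have h1' : (j : ℝ) ≤ (k : ℝ) := by exact_mod_cast h1
    have h2' : (k : ℝ) ≤ (i : ℝ) := by exact_mod_cast h2
    rw [abs_of_nonneg (by linarith), abs_of_nonneg (by linarith), abs_of_nonpos (by linarith)]
    ring

theorem K_between {i j k i' j' k' : ℕ} (h : k ∈ Set.uIcc i j) (h' : k' ∈ Set.uIcc i' j') :
    8 * (K2 i j * K2 i' j') ≤ K1 i k * K1 i' k' + K1 j k * K1 j' k' := by
  unfold K1 K2
  rw [abs_between h, abs_between h']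
  exact kin (abs_nonneg _) (abs_nonneg _) (abs_nonneg _) (abs_nonneg _)

end Pool.Agent.Work.MP_763b10_co.AC
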