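import Pool.Agent.Work.MP_763b10_co.AC.Blk
import Pool.Agent.Work.MP_763b10_co.AC.Kin

/-!
# The energy inequality.  Size: M.

Let `q` be the choice of `exists_blk`.  For fixed `p ∈ P` the map `p' ↦ q p p'` is injective on `P.erase p` with values in `Q'`
(`q p p' ∈ Q` lies on the open segment), so, the kernel being `≥ 0`,
`∑ x ∈ Q', K1 (F p) (F x) * K1 (G p) (G x) ≥ ∑ p' ∈ P.erase p, K1 (F p) (F (q p p')) * K1 (G p) (G (q p p'))`
(`Finset.sum_image` / `Finset.sum_le_sum_of_subset_of_nonneg`).  Sum over `p` (`Finset.sum_comm`).  The double sum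
`∑ p, ∑ p' ∈ P.erase p, f p p'` with `f p p' = K1 (F p) (F (q p p')) * K1 (G p) (G (q p p'))` is also `∑ p, ∑ p' ∈ P.erase p, f p' p`
(swap), so it is half of `∑ p, ∑ p' ∈ P.erase p, (f p p' + f p' p)`, `q p' p = q p p'`, and
`f p p' + f p' p ≥ 8 (K2 (F p) (F p') * K2 (G p) (G p'))` by `K_between` (`F (q p p')` lies between `F p` and `F p'` by `SegMono`).
-/

namespace Pool.Agent.Work.MP_763b10_co.AC

private theorem K1_nonneg (i j : ℕ) : 0 ≤ K1 i j := by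
  unfold K1
  positivity

theorem ene {P Q Q' : Finset (ℝ × ℝ)} (hP : GenPos P) (hQ : Blocks Q P) {F G : ℝ × ℝ → ℕ} (hF : SegMono P F)
    (hG : SegMono P G) (hQ' : ∀ p ∈ P, ∀ q ∈ P, ∀ x ∈ Q, x ∈ openSegment ℝ p q → x ∈ Q') :
    4 * ∑ p ∈ P, ∑ p' ∈ P.erase p, K2 (F p) (F p') * K2 (G p) (G p') ≤
      ∑ x ∈ Q', ∑ p ∈ P, K1 (F p) (F x) * K1 (G p) (G x) := by
  classical
  obtain ⟨q, hq1, hq2⟩ := exists_blk hP hQ
  set f : ℝ × ℝ → ℝ × ℝ → ℝ := fun p p' => K1 (F p) (F (q p p')) * K1 (G p) (G (q p p')) with hf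
  have hA : ∀ p ∈ P, ∑ p' ∈ P.erase p, f p p' ≤ ∑ x ∈ Q', K1 (F p) (F x) * K1 (G p) (G x) := by
    intro p hp
    have hinj : Set.InjOn (q p) (P.erase p : Finset (ℝ × ℝ)) := by
      intro b hb b' hb' hbb
      rw [Finset.mem_coe, Finset.mem_erase] at hb hb'
      exact hq2 p hp b hb.2 b' hb'.2 (Ne.symm hb.1) (Ne.symm hb'.1) hbb
    have h1 : ∑ p' ∈ P.erase p, f p p' =
        ∑ x ∈ (P.erase p).image (q p), K1 (F p) (F x) * K1 (G p) (G x) := by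
      rw [Finset.sum_image hinj]
    rw [h1]
    apply Finset.sum_le_sum_of_subset_of_nonneg
    · intro x hx
      rw [Finset.mem_image] at hx
      obtain ⟨p', hp', rfl⟩ := hx
      rw [Finset.mem_erase] at hp'
      obtain ⟨h2, h3, -⟩ := hq1 p hp p' hp'.2 (Ne.symm hp'.1)
      exact hQ' p hp p' hp'.2 _ h2 h3
    · intro x _ _
      exact mul_nonneg (K1_nonneg _ _) (K1_nonneg _ _)
  have hB : ∑ p ∈ P, ∑ p' ∈ P.erase p, f p p' = ∑ p ∈ P, ∑ p' ∈ P.erase p, f p' p := by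
    apply Finset.sum_comm'
    intro x y
    simp only [Finset.mem_erase]
    constructor
    · rintro ⟨h1, h2, h3⟩
      exact ⟨⟨Ne.symm h2, h1⟩, h3⟩
    · rintro ⟨⟨h1, h2⟩, h3⟩
      exact ⟨h2, Ne.symm h1, h3⟩
  have hC : ∑ p ∈ P, ∑ p' ∈ P.erase p, 8 * (K2 (F p) (F p') * K2 (G p) (G p')) ≤
      ∑ p ∈ P, ∑ p' ∈ P.erase p, (f p p' + f p' p) := by
    apply Finset.sum_le_sum
    intro p hp
    apply Finset.sum_le_sum
    intro p' hp'
    rw [Finset.mem_erase] at hp'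
    obtain ⟨-, h3, h4⟩ := hq1 p hp p' hp'.2 (Ne.symm hp'.1)
    have h5 := K_between (hF p hp p' hp'.2 _ h3) (hG p hp p' hp'.2 _ h3)
    simp only [hf]
    rw [← h4]
    exact h5
  have hD : ∑ p ∈ P, ∑ p' ∈ P.erase p, (f p p' + f p' p) =
      2 * ∑ p ∈ P, ∑ p' ∈ P.erase p, f p p' := by
    have : ∑ p ∈ P, ∑ p' ∈ P.erase p, (f p p' + f p' p) =
        ∑ p ∈ P, ∑ p' ∈ P.erase p, f p p' + ∑ p ∈ P, ∑ p' ∈ P.erase p, f p' p := by
      rw [← Finset.sum_add_distrib]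
      exact Finset.sum_congr rfl (fun p _ => Finset.sum_add_distrib)
    rw [this, ← hB]
    ring
  have hE : ∑ p ∈ P, ∑ p' ∈ P.erase p, 8 * (K2 (F p) (F p') * K2 (G p) (G p')) =
      8 * ∑ p ∈ P, ∑ p' ∈ P.erase p, K2 (F p) (F p') * K2 (G p) (G p') := by
    rw [Finset.mul_sum]
    exact Finset.sum_congr rfl (fun p _ => by rw [Finset.mul_sum])
  have hG' : ∑ p ∈ P, ∑ p' ∈ P.erase p, f p p' ≤
      ∑ x ∈ Q', ∑ p ∈ P, K1 (F p) (F x) * K1 (G p) (G x) := by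
    rw [Finset.sum_comm]
    exact Finset.sum_le_sum hA
  rw [hD, hE] at hC
  linarith

end Pool.Agent.Work.MP_763b10_co.AC
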