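import Pool.Agent.Work.MP_763b10_co.AC.Tsel
import Pool.Agent.Work.MP_763b10_co.AC.Cel
import Pool.Agent.Work.MP_763b10_co.AC.Appr
import Pool.Agent.Work.MP_763b10_co.AC.Colm

/-!
# Almost uniform grids for a measure with continuous fibres.  Size: M.

Let `ν = ρ.fst`, `V = ν.real univ = ρ.real univ`, `δ₁ = δ / (2 M (V + 1))`, `δ₂ = δ / (2 M)` (both `≤ δ/2`, `M ≥ 1`).  Take `s, T, y` from `tsel` with `δ₁` and
`r, a, b, l` from `appr` for `ν, T` with `δ₂`; `X i` from `colm` for `ν, a i, b i`; `Y i = y (l i)`; `m i = ν.real (Ico (a i) (b i))`.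
Then `∑ m i ≥ ν (⋃ T) - δ₂ ≥ V - δ₁ - δ₂ ≥ V - δ`.  For a cell: `m i / M² = ν.real (J_u) / M` with `J_u = Ico (X i u.castSucc) (X i u.succ)`, so by `cel`
the defect is at most `δ₁ ν(J_u) + ν(J_u \ T (l i))`; the `J_u` are disjoint with union `Ico (a i) (b i)` (`X i` monotone): the sum over `u` and over the `M` values of `v` is at most
`M δ₁ m i + M ν (Ico (a i) (b i) \ T (l i))`, and the sum over `i` is at most `M δ₁ V + M δ₂ ≤ δ` (the intervals are disjoint: `∑ m i ≤ V`).
-/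

open MeasureTheory

namespace Pool.Agent.Work.MP_763b10_co.AC

private lemma grd_disj {M : ℕ} {X : Fin (M + 1) → ℝ} (hX : Monotone X) :
    Pairwise fun u v : Fin M => Disjoint (Set.Ico (X u.castSucc) (X u.succ))
      (Set.Ico (X v.castSucc) (X v.succ)) := by
  have key : ∀ u v : Fin M, u < v → Disjoint (Set.Ico (X u.castSucc) (X u.succ))
      (Set.Ico (X v.castSucc) (X v.succ)) := by
    intro u v huv
    have h : X u.succ ≤ X v.castSucc := hX (by
      rw [Fin.le_def]
      simp only [Fin.val_succ, Fin.val_castSucc]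
      exact huv)
    rw [Set.disjoint_left]
    intro x hx hx'
    exact absurd (lt_of_lt_of_le hx.2 h) (not_lt.mpr hx'.1)
  intro u v huv
  rcases lt_or_gt_of_ne huv with h | h
  · exact key u v h
  · exact (key v u h).symm

private lemma grd_sum_le {ν : Measure ℝ} [IsFiniteMeasure ν] {n : ℕ} (S : Fin n → Set ℝ)
    (hS : ∀ i, MeasurableSet (S i)) (hd : Pairwise fun i j => Disjoint (S i) (S j)) (B : Set ℝ)
    (hB : ∀ i, S i ⊆ B) : ∑ i, ν.real (S i) ≤ ν.real B := by
  rw [← measureReal_biUnion_finset (s := Finset.univ) (f := S)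
    (fun i _ j _ hij => hd hij) (fun i _ => hS i)]
  exact measureReal_mono (Set.iUnion₂_subset fun i _ => hB i)

theorem grd (ρ : Measure (ℝ × ℝ)) [IsFiniteMeasure ρ] (h1 : ∀ x, ρ.fst {x} = 0)
    (h2 : ∀ᵐ t ∂ρ.fst, ∀ y, ρ.condKernel t {y} = 0) (M : ℕ) (hM : 1 ≤ M) (δ : ℝ) (hδ : 0 < δ) :
    ∃ (r : ℕ) (X Y : Fin r → Fin (M + 1) → ℝ) (m : Fin r → ℝ), (∀ i, Monotone (X i)) ∧ (∀ i, Monotone (Y i)) ∧
      (Pairwise fun i j => Disjoint (Set.Ico (X i 0) (X i (Fin.last M))) (Set.Ico (X j 0) (X j (Fin.last M)))) ∧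
      (∀ i, 0 ≤ m i) ∧ ρ.real Set.univ - δ ≤ ∑ i, m i ∧
      ∑ i, ∑ a : Fin M, ∑ b : Fin M, max 0 (m i / (M : ℝ) ^ 2 -
        ρ.real (Set.Ico (X i a.castSucc) (X i a.succ) ×ˢ Set.Ico (Y i b.castSucc) (Y i b.succ))) ≤ δ := by
  classical
  set ν := ρ.fst with hν
  set V := ν.real Set.univ with hV
  have hV0 : 0 ≤ V := measureReal_nonneg
  have hVρ : ρ.real Set.univ = V := by
    rw [hV, hν, measureReal_def, measureReal_def, Measure.fst_univ]
  have hM0 : (0 : ℝ) < M := by exact_mod_cast hM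
  have hM1 : (1 : ℝ) ≤ M := by exact_mod_cast hM
  set δ₁ := δ / (2 * M * (V + 1)) with hδ₁
  set δ₂ := δ / (2 * M) with hδ₂
  have hδ₁0 : 0 < δ₁ := by positivity
  have hδ₂0 : 0 < δ₂ := by positivity
  have e2 : (M : ℝ) * δ₂ = δ / 2 := by
    rw [hδ₂]
    field_simp
  have e1 : (M : ℝ) * δ₁ * (V + 1) = δ / 2 := by
    rw [hδ₁]
    field_simp
  have hδ₂' : δ₂ ≤ δ / 2 := by
    rw [← e2]
    nlinarith
  have hδ₁' : δ₁ ≤ δ / 2 := by
    rw [← e1]
    have h3 : δ₁ ≤ M * δ₁ := by nlinarith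
    have h4 : M * δ₁ ≤ M * δ₁ * (V + 1) := by
      have : 0 ≤ M * δ₁ * V := by positivity
      nlinarith
    linarith
  obtain ⟨s, T, y, hTm, hTd, hym, hTk, hTV⟩ := tsel ρ h2 M hM δ₁ hδ₁0
  obtain ⟨r, a, b, l, hab, hdis, herr, hsum⟩ := appr ν T hTm hTd δ₂ hδ₂0
  choose X hXm hX0 hXl hXe using fun i => colm ν h1 (a i) (b i) (hab i) M hM
  refine ⟨r, X, fun i => y (l i), fun i => ν.real (Set.Ico (a i) (b i)), hXm,
    fun i => hym (l i), ?_, fun i => measureReal_nonneg, ?_, ?_⟩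
  · intro i j hij
    show Disjoint (Set.Ico (X i 0) (X i (Fin.last M))) (Set.Ico (X j 0) (X j (Fin.last M)))
    rw [hX0, hXl, hX0, hXl]
    exact hdis hij
  · rw [hVρ]
    linarith
  · have hcell : ∀ (i : Fin r) (u v : Fin M), max 0 (ν.real (Set.Ico (a i) (b i)) / (M : ℝ) ^ 2 -
        ρ.real (Set.Ico (X i u.castSucc) (X i u.succ) ×ˢ
          Set.Ico (y (l i) v.castSucc) (y (l i) v.succ))) ≤
        δ₁ * ν.real (Set.Ico (X i u.castSucc) (X i u.succ)) +
          ν.real (Set.Ico (X i u.castSucc) (X i u.succ) \ T (l i)) := by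
      intro i u v
      have h3 := cel ρ M hM δ₁ hδ₁0.le (T (l i)) (Set.Ico (X i u.castSucc) (X i u.succ))
        (Set.Ico (y (l i) v.castSucc) (y (l i) v.succ)) (hTm _) measurableSet_Ico
        measurableSet_Ico (fun t ht => hTk (l i) t ht v)
      have h4 : ν.real (Set.Ico (a i) (b i)) / (M : ℝ) ^ 2 =
          ν.real (Set.Ico (X i u.castSucc) (X i u.succ)) / (M : ℝ) := by
        rw [hXe i u]
        field_simp
      rw [h4]
      exact h3
    have hrow : ∀ i : Fin r, ∑ u : Fin M, ∑ v : Fin M, max 0 (ν.real (Set.Ico (a i) (b i)) / (M : ℝ) ^ 2 -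
        ρ.real (Set.Ico (X i u.castSucc) (X i u.succ) ×ˢ
          Set.Ico (y (l i) v.castSucc) (y (l i) v.succ))) ≤
        M * δ₁ * ν.real (Set.Ico (a i) (b i)) + M * ν.real (Set.Ico (a i) (b i) \ T (l i)) := by
      intro i
      have h3 : ∀ u : Fin M, ∑ v : Fin M, max 0 (ν.real (Set.Ico (a i) (b i)) / (M : ℝ) ^ 2 -
          ρ.real (Set.Ico (X i u.castSucc) (X i u.succ) ×ˢ
            Set.Ico (y (l i) v.castSucc) (y (l i) v.succ))) ≤
          M * δ₁ * ν.real (Set.Ico (X i u.castSucc) (X i u.succ)) +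
            M * ν.real (Set.Ico (X i u.castSucc) (X i u.succ) \ T (l i)) := by
        intro u
        refine (Finset.sum_le_sum fun v _ => hcell i u v).trans ?_
        rw [Finset.sum_const, Finset.card_univ, Fintype.card_fin, nsmul_eq_mul]
        apply le_of_eq
        ring
      refine (Finset.sum_le_sum fun u _ => h3 u).trans ?_
      rw [Finset.sum_add_distrib, ← Finset.mul_sum, ← Finset.mul_sum]
      refine add_le_add ?_ ?_
      · apply le_of_eq
        congr 1
        rw [Finset.sum_congr rfl fun u _ => hXe i u, Finset.sum_const, Finset.card_univ,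
          Fintype.card_fin, nsmul_eq_mul]
        field_simp
      · refine mul_le_mul_of_nonneg_left ?_ hM0.le
        refine grd_sum_le (fun u => Set.Ico (X i u.castSucc) (X i u.succ) \ T (l i))
          (fun u => measurableSet_Ico.diff (hTm _)) (fun u v huv => ?_) _ (fun u => ?_)
        · exact (grd_disj (hXm i) huv).mono Set.sdiff_subset Set.sdiff_subset
        · refine Set.sdiff_subset_sdiff_left (Set.Ico_subset_Ico ?_ ?_)
          · rw [← hX0 i]
            exact hXm i (Fin.zero_le _)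
          · rw [← hXl i]
            exact hXm i (Fin.le_last _)
    refine (Finset.sum_le_sum fun i _ => hrow i).trans ?_
    rw [Finset.sum_add_distrib, ← Finset.mul_sum, ← Finset.mul_sum]
    have h5 : ∑ i, ν.real (Set.Ico (a i) (b i)) ≤ V :=
      grd_sum_le _ (fun i => measurableSet_Ico) hdis Set.univ fun i => Set.subset_univ _
    have h6 : M * δ₁ * ∑ i, ν.real (Set.Ico (a i) (b i)) ≤ M * δ₁ * (V + 1) := by
      refine mul_le_mul_of_nonneg_left (by linarith) (by positivity)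
    have h7 : M * ∑ i, ν.real (Set.Ico (a i) (b i) \ T (l i)) ≤ M * δ₂ :=
      mul_le_mul_of_nonneg_left herr hM0.le
    linarith

end Pool.Agent.Work.MP_763b10_co.AC
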