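import Mathlib

/-!
# Lower bound for the number of points in a box.  Size: M (Mathlib only).

If `b ≤ a` or `d ≤ c` the box is empty and the claim is `-δ N ≤ 0`.  Otherwise the boundary of the box is `ρ`-null: `ρ ({a} ×ˢ univ) = ρ.fst {a} = 0`
and `ρ (univ ×ˢ {c}) = ∫⁻ t, (ρ.condKernel t) {c} ∂ρ.fst = 0`, so `ρ (Ico a b ×ˢ Ico c d) = ρ (Ioo a b ×ˢ Ioo c d)`.  The functions
`φ k x = min 1 (k * max 0 (min (min (x.1 - a) (b - x.1)) (min (x.2 - c) (d - x.2))))` are continuous, `0 ≤ φ k ≤ 1`, vanish outside `Ioo a b ×ˢ Ioo c d` (compact support: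
contained in `Icc a b ×ˢ Icc c d`) and converge pointwise to its indicator; by dominated convergence some `φ = φ k` has `∫ φ ∂ρ ≥ ρ.real (box) - δ/2`.
Apply `hlim` to `φ` and `δ/2`; finally `∑ p ∈ P n, φ (u n p, v n p) ≤ #{p | (u n p, v n p) in the box}`.
-/

open MeasureTheory Filter

namespace Pool.Agent.Work.MP_763b10_co.AC

theorem vag (ρ : Measure (ℝ × ℝ)) [IsFiniteMeasure ρ] (h1 : ∀ x, ρ.fst {x} = 0)
    (h2 : ∀ᵐ t ∂ρ.fst, ∀ y, ρ.condKernel t {y} = 0) (P : ℕ → Finset (ℝ × ℝ)) (u v : ℕ → ℝ × ℝ → ℝ)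
    (hlim : ∀ φ : ℝ × ℝ → ℝ, Continuous φ → HasCompactSupport φ → (∀ x, 0 ≤ φ x) → ∀ δ > 0, ∀ᶠ n in atTop,
      ((∫ x, φ x ∂ρ) - δ) * ((P n).card : ℝ) ≤ ∑ p ∈ P n, φ (u n p, v n p))
    (a b c d : ℝ) (δ : ℝ) (hδ : 0 < δ) :
    ∀ᶠ n in atTop, (ρ.real (Set.Ico a b ×ˢ Set.Ico c d) - δ) * ((P n).card : ℝ) ≤
      (((P n).filter (fun p => u n p ∈ Set.Ico a b ∧ v n p ∈ Set.Ico c d)).card : ℝ) := by
  classical
  obtain ⟨g, hg⟩ : ∃ g : ℝ × ℝ → ℝ,
      g = fun x => min (min (x.1 - a) (b - x.1)) (min (x.2 - c) (d - x.2)) := ⟨_, rfl⟩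
  obtain ⟨φ, hφ⟩ : ∃ φ : ℕ → ℝ × ℝ → ℝ, 
      φ = fun (k : ℕ) x => min 1 ((k : ℝ) * max 0 (g x)) := ⟨_, rfl⟩
  have hc : ∀ k, Continuous (φ k) := by
    intro k
    rw [hφ, hg]
    fun_prop
  have h0 : ∀ k x, 0 ≤ φ k x := by
    intro k x
    rw [hφ]
    exact le_min zero_le_one (mul_nonneg (Nat.cast_nonneg k) (le_max_left _ _))
  have h1' : ∀ k x, φ k x ≤ 1 := by
    intro k x
    rw [hφ]
    exact min_le_left _ _
  have hpos : ∀ x, x ∈ Set.Ioo a b ×ˢ Set.Ioo c d ↔ 0 < g x := by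
    intro x
    rw [hg]
    simp only [lt_min_iff, sub_pos, Set.mem_prod, Set.mem_Ioo]
  have hout : ∀ k x, x ∉ Set.Ioo a b ×ˢ Set.Ioo c d → φ k x = 0 := by
    intro k x hx
    have h : g x ≤ 0 := by
      by_contra hlt
      exact hx ((hpos x).2 (not_le.1 hlt))
    rw [hφ]
    simp only [max_eq_left h, mul_zero]
    exact min_eq_right zero_le_one
  have hsupp : ∀ k, HasCompactSupport (φ k) := by
    intro k
    apply HasCompactSupport.intro
      (isCompact_Icc.prod isCompact_Icc : IsCompact (Set.Icc a b ×ˢ Set.Icc c d))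
    intro x hx
    apply hout
    intro h
    exact hx ⟨Set.Ioo_subset_Icc_self h.1, Set.Ioo_subset_Icc_self h.2⟩
  have hlimφ : Tendsto (fun k => ∫ x, φ k x ∂ρ) atTop
      (nhds (∫ x, (Set.Ioo a b ×ˢ Set.Ioo c d).indicator (fun _ => (1 : ℝ)) x ∂ρ)) := by
    apply tendsto_integral_of_dominated_convergence (fun _ => (1 : ℝ))
    · intro k
      exact (hc k).aestronglyMeasurable
    · exact integrable_const 1
    · intro k
      filter_upwards with x
      rw [Real.norm_eq_abs, abs_of_nonneg (h0 k x)]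
      exact h1' k x
    · filter_upwards with x
      by_cases hx : x ∈ Set.Ioo a b ×ˢ Set.Ioo c d
      · rw [Set.indicator_of_mem hx]
        have hp : 0 < g x := (hpos x).1 hx
        apply tendsto_const_nhds.congr'
        obtain ⟨K, hK⟩ := exists_nat_gt (1 / g x)
        filter_upwards [eventually_ge_atTop K] with k hk
        have h3 : 1 / g x < k := hK.trans_le (by exact_mod_cast hk)
        rw [div_lt_iff₀ hp] at h3
        rw [hφ]
        simp only [max_eq_right hp.le]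
        exact (min_eq_left h3.le).symm
      · rw [Set.indicator_of_notMem hx]
        apply tendsto_const_nhds.congr
        intro k
        exact (hout k x hx).symm
  have hms : MeasurableSet (Set.Ioo a b ×ˢ Set.Ioo c d) := measurableSet_Ioo.prod measurableSet_Ioo
  rw [integral_indicator_const _ hms, smul_eq_mul, mul_one] at hlimφ
  have hA : ρ (Prod.fst ⁻¹' {a}) = 0 := by
    have h := h1 a
    rwa [Measure.fst_apply (measurableSet_singleton a)] at h
  have hC : ρ (Prod.snd ⁻¹' {c}) = 0 := by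
    have hmc : MeasurableSet (Prod.snd ⁻¹' {c} : Set (ℝ × ℝ)) := measurable_snd (measurableSet_singleton c)
    have h := Measure.compProd_apply (μ := ρ.fst) (κ := ρ.condKernel) hmc
    rw [Measure.disintegrate ρ ρ.condKernel] at h
    rw [h, lintegral_eq_zero_iff' ?_]
    · filter_upwards [h2] with t ht
      exact ht c
    · exact (ProbabilityTheory.Kernel.measurable_kernel_prodMk_left hmc).aemeasurable
  have hR : ρ.real (Set.Ico a b ×ˢ Set.Ico c d) ≤ ρ.real (Set.Ioo a b ×ˢ Set.Ioo c d) := by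
    rw [measureReal_def, measureReal_def]
    apply ENNReal.toReal_mono (measure_ne_top _ _)
    have hsub : Set.Ico a b ×ˢ Set.Ico c d ⊆
        (Set.Ioo a b ×ˢ Set.Ioo c d) ∪ (Prod.fst ⁻¹' {a} ∪ Prod.snd ⁻¹' {c}) := by
      rintro ⟨x, y⟩ ⟨hx, hy⟩
      rcases eq_or_lt_of_le hx.1 with h | h
      · exact Or.inr (Or.inl h.symm)
      · rcases eq_or_lt_of_le hy.1 with h' | h'
        · exact Or.inr (Or.inr h'.symm)
        · exact Or.inl ⟨⟨h, hx.2⟩, ⟨h', hy.2⟩⟩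
    calc ρ (Set.Ico a b ×ˢ Set.Ico c d) ≤ _ := measure_mono hsub
      _ ≤ ρ (Set.Ioo a b ×ˢ Set.Ioo c d) + ρ (Prod.fst ⁻¹' {a} ∪ Prod.snd ⁻¹' {c}) :=
        measure_union_le _ _
      _ ≤ ρ (Set.Ioo a b ×ˢ Set.Ioo c d) + (ρ (Prod.fst ⁻¹' {a}) + ρ (Prod.snd ⁻¹' {c})) := by
        gcongr
        exact measure_union_le _ _
      _ = ρ (Set.Ioo a b ×ˢ Set.Ioo c d) := by rw [hA, hC, add_zero, add_zero]
  obtain ⟨k, hk⟩ : ∃ k, ρ.real (Set.Ioo a b ×ˢ Set.Ioo c d) - δ / 2 < ∫ x, φ k x ∂ρ :=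
    (hlimφ.eventually (lt_mem_nhds (sub_lt_self _ (half_pos hδ)))).exists
  filter_upwards [hlim (φ k) (hc k) (hsupp k) (h0 k) (δ / 2) (half_pos hδ)] with n hn
  calc (ρ.real (Set.Ico a b ×ˢ Set.Ico c d) - δ) * ((P n).card : ℝ)
      ≤ ((∫ x, φ k x ∂ρ) - δ / 2) * ((P n).card : ℝ) := by
        apply mul_le_mul_of_nonneg_right _ (Nat.cast_nonneg _)
        linarith
    _ ≤ ∑ p ∈ P n, φ k (u n p, v n p) := hn
    _ ≤ ∑ p ∈ P n, if (u n p ∈ Set.Ico a b ∧ v n p ∈ Set.Ico c d) then (1 : ℝ) else 0 := by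
        apply Finset.sum_le_sum
        intro p _
        split_ifs with h
        · exact h1' _ _
        · rw [hout]
          intro h'
          exact h ⟨Set.Ioo_subset_Ico_self h'.1, Set.Ioo_subset_Ico_self h'.2⟩
    _ = (((P n).filter (fun p => u n p ∈ Set.Ico a b ∧ v n p ∈ Set.Ico c d)).card : ℝ) := by
        rw [Finset.sum_boole]

end Pool.Agent.Work.MP_763b10_co.AC
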