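import Pool.Agent.Work.MP_763b10_co.AC.Core
import Pool.Agent.Work.MP_763b10_co.AC.Grd
import Pool.Agent.Work.MP_763b10_co.AC.Vag
import Pool.Agent.Work.MP_763b10_co.AC.Asm

/-!
# The general theorem.  Size: M.

Let `V = ρ.real univ`.  Choose `0 < ε ≤ 1` with `c + ε ≤ 4 (1 - ε) (V - ε) - 16 ε`, `M` from `core ε`, `r, X, Y, m` from `grd` with `δ = ε`,
`τ = ε / (r M² + 1)`, `w i a b = ρ.real (cell)`.  By `vag` the hypothesis `hw` of `asm` holds for all large `n` (finitely many cells, `eventually_all`); `asm` gives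
`|Q n| ≥ N (4 (1-ε) ∑ m - 8 (ε + ε)) - 4 r M² ≥ N (c + ε) - 4 r M² ≥ c N` as soon as `ε N ≥ 4 r M²`.
-/

open MeasureTheory Filter

namespace Pool.Agent.Work.MP_763b10_co.AC

theorem gen (P Q : ℕ → Finset (ℝ × ℝ)) (hP : ∀ n, GenPos (P n)) (hQ : ∀ n, Blocks (Q n) (P n))
    (hcard : Tendsto (fun n => (P n).card) atTop atTop) (u v : ℕ → ℝ × ℝ → ℝ) (hu : ∀ n, SegMono (P n) (u n))
    (hv : ∀ n, SegMono (P n) (v n)) (ρ : Measure (ℝ × ℝ)) [IsFiniteMeasure ρ] (h1 : ∀ x, ρ.fst {x} = 0)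
    (h2 : ∀ᵐ t ∂ρ.fst, ∀ y, ρ.condKernel t {y} = 0)
    (hlim : ∀ φ : ℝ × ℝ → ℝ, Continuous φ → HasCompactSupport φ → (∀ x, 0 ≤ φ x) → ∀ δ > 0, ∀ᶠ n in atTop,
      ((∫ x, φ x ∂ρ) - δ) * ((P n).card : ℝ) ≤ ∑ p ∈ P n, φ (u n p, v n p))
    (c : ℝ) (hc : c < 4 * ρ.real Set.univ) : ∀ᶠ n in atTop, c * ((P n).card : ℝ) ≤ ((Q n).card : ℝ) := by
  set V : ℝ := ρ.real Set.univ with hV
  have hV0 : 0 ≤ V := measureReal_nonneg
  have hg0 : 0 < 4 * V - c := by linarith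
  set ε : ℝ := min 1 ((4 * V - c) / (22 + 4 * V)) with hεdef
  have hden : 0 < 22 + 4 * V := by linarith
  have hε0 : 0 < ε := lt_min one_pos (div_pos hg0 hden)
  have hε1 : ε ≤ 1 := min_le_left _ _
  have hε2 : ε * (22 + 4 * V) ≤ 4 * V - c := by
    have : ε ≤ (4 * V - c) / (22 + 4 * V) := min_le_right _ _
    rwa [le_div_iff₀ hden] at this
  have hmain : c + ε ≤ 4 * (1 - ε) * (V - ε) - 16 * ε := by nlinarith
  obtain ⟨M, hM, hgr⟩ := core ε hε0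
  obtain ⟨r, X, Y, m, hX, hY, hdis, hm, hsum, hdef⟩ := grd ρ h1 h2 M hM ε hε0
  have hrM : (0 : ℝ) ≤ (r : ℝ) * (M : ℝ) ^ 2 := by positivity
  set τ : ℝ := ε / ((r : ℝ) * (M : ℝ) ^ 2 + 1) with hτdef
  have hτ0 : 0 < τ := div_pos hε0 (by linarith)
  have hτ1 : (r : ℝ) * (M : ℝ) ^ 2 * τ ≤ ε := by
    rw [hτdef, mul_div_assoc', div_le_iff₀ (by linarith)]
    nlinarith
  have hev : ∀ᶠ n in atTop, ∀ (i : Fin r) (a b : Fin M),
      (ρ.real (Set.Ico (X i a.castSucc) (X i a.succ) ×ˢ Set.Ico (Y i b.castSucc) (Y i b.succ)) - τ) *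
        ((P n).card : ℝ) ≤ (((P n).filter (fun p => u n p ∈ Set.Ico (X i a.castSucc) (X i a.succ) ∧
          v n p ∈ Set.Ico (Y i b.castSucc) (Y i b.succ))).card : ℝ) := by
    rw [eventually_all]
    intro i
    rw [eventually_all]
    intro a
    rw [eventually_all]
    intro b
    exact vag ρ h1 h2 P u v hlim _ _ _ _ τ hτ0
  have hlarge : ∀ᶠ n in atTop, 4 * (r : ℝ) * (M : ℝ) ^ 2 / ε ≤ ((P n).card : ℝ) :=
    (tendsto_natCast_atTop_atTop.comp hcard).eventually_ge_atTop _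
  filter_upwards [hev, hlarge] with n hn hn2
  have key := asm hM hgr hε0.le hε1 (hP n) (hQ n) (hu n) (hv n) X Y m
    (fun i a b => ρ.real (Set.Ico (X i a.castSucc) (X i a.succ) ×ˢ Set.Ico (Y i b.castSucc) (Y i b.succ)))
    τ hτ0.le hX hY hdis hm hn
  refine le_trans ?_ key
  have hN0 : (0 : ℝ) ≤ ((P n).card : ℝ) := Nat.cast_nonneg _
  have hn3 : 4 * (r : ℝ) * (M : ℝ) ^ 2 ≤ ((P n).card : ℝ) * ε := by rwa [div_le_iff₀ hε0] at hn2
  have h4 : 4 * (1 - ε) * (V - ε) ≤ 4 * (1 - ε) * ∑ i, m i :=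
    mul_le_mul_of_nonneg_left hsum (by linarith)
  have h5 : c + ε ≤ 4 * (1 - ε) * ∑ i, m i -
      8 * (∑ i, ∑ a : Fin M, ∑ b : Fin M, max 0 (m i / (M : ℝ) ^ 2 -
        ρ.real (Set.Ico (X i a.castSucc) (X i a.succ) ×ˢ Set.Ico (Y i b.castSucc) (Y i b.succ))) +
          (r : ℝ) * (M : ℝ) ^ 2 * τ) := by linarith
  have h6 := mul_le_mul_of_nonneg_left h5 hN0
  linarith

end Pool.Agent.Work.MP_763b10_co.AC
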