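import Mathlib

/-!
# Approximate rational quantiles.  Size: M (Mathlib only).

`κ` is a probability measure on `ℝ` without atoms, so `Φ t = κ (Iio t)` is continuous, monotone, `→ 0` at `-∞` and `→ 1` at `∞`.  For
`v = 0, ..., M` there is a rational `y v` with `|Φ (y v) - v/M| ≤ δ/2` (intermediate values / limits, density of `ℚ` and continuity; for
`0 < v < M` take a real `t` with `Φ t = v/M`); to get a monotone `y` choose them with error `≤ min (δ/2) (1/(2 M))`... two consecutive ones are then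
ordered since `Φ (y v) ≤ Φ (y (v+1))` and, if equal, `y` can be replaced by the minimum; simplest: choose real `t 0 < t 1 < ... < t M` with
`Φ (t v)` within `min (δ/4) (1/(8M))` of `v/M` and rationals in small intervals to the right.  Then
`κ (Ico (y v) (y (v+1))) = Φ (y (v+1)) - Φ (y v)`.
-/

open MeasureTheory

namespace Pool.Agent.Work.MP_763b10_co.AC

theorem quan (κ : Measure ℝ) [IsProbabilityMeasure κ] (hκ : ∀ x, κ {x} = 0) (M : ℕ) (hM : 1 ≤ M) (δ : ℝ) (hδ : 0 < δ) :
    ∃ y : Fin (M + 1) → ℚ, Monotone y ∧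
      ∀ v : Fin M, |κ.real (Set.Ico ((y v.castSucc : ℚ) : ℝ) ((y v.succ : ℚ) : ℝ)) - 1 / (M : ℝ)| ≤ δ := by
  classical
  set F := ProbabilityTheory.cdf κ with hF
  have hFr : ∀ x, F x = κ.real (Set.Iic x) := fun x => ProbabilityTheory.cdf_eq_real κ x
  have hmono : Monotone F := F.mono
  have hcont : Continuous F := by
    rw [continuous_iff_continuousAt]
    intro a
    rw [hmono.continuousAt_iff_leftLim_eq_rightLim]
    have h1 : Function.rightLim F a = F a := F.rightLim_eq a
    have h2 : F.measure {a} = ENNReal.ofReal (F a - Function.leftLim F a) := F.measure_singleton a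
    rw [hF, ProbabilityTheory.measure_cdf, hκ a] at h2
    have h3 : F a - Function.leftLim F a ≤ 0 := by
      have := h2.symm
      exact ENNReal.ofReal_eq_zero.mp this
    have h4 : Function.leftLim F a ≤ F a := hmono.leftLim_le le_rfl
    rw [h1]; linarith
  have hM0 : (0 : ℝ) < M := by exact_mod_cast hM
  -- approximation
  have key : ∀ s : ℝ, 0 ≤ s → s ≤ 1 → ∀ ε : ℝ, 0 < ε → ∃ q : ℚ, |F (q : ℝ) - s| < ε := by
    intro s hs0 hs1 ε hε
    have hopen : IsOpen {t : ℝ | |F t - s| < ε} :=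
      isOpen_lt ((hcont.sub continuous_const).abs) continuous_const
    have hne : ({t : ℝ | |F t - s| < ε}).Nonempty := by
      have hb : Filter.Tendsto F Filter.atBot (nhds 0) := ProbabilityTheory.tendsto_cdf_atBot κ
      have ht : Filter.Tendsto F Filter.atTop (nhds 1) := ProbabilityTheory.tendsto_cdf_atTop κ
      obtain ⟨a, ha⟩ := (hb.eventually (gt_mem_nhds hε)).exists
      obtain ⟨b, hb'⟩ := (ht.eventually (lt_mem_nhds (show (1 - ε) < 1 by linarith))).exists
      have hFa0 : 0 ≤ F a := ProbabilityTheory.cdf_nonneg κ a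
      have hFb1 : F b ≤ 1 := ProbabilityTheory.cdf_le_one κ b
      by_cases h1 : s ≤ F a
      · refine ⟨a, ?_⟩
        simp only [Set.mem_setOf_eq, abs_lt]
        constructor <;> linarith
      · by_cases h2 : F b ≤ s
        · refine ⟨b, ?_⟩
          simp only [Set.mem_setOf_eq, abs_lt]
          constructor <;> linarith
        · push_neg at h1 h2
          obtain ⟨t, ht⟩ := mem_range_of_exists_le_of_exists_ge hcont ⟨a, h1.le⟩ ⟨b, h2.le⟩
          refine ⟨t, ?_⟩
          simp only [Set.mem_setOf_eq, ht]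
          simpa using hε
    obtain ⟨q, hq⟩ := (Rat.denseRange_cast (𝕜 := ℝ)).exists_mem_open hopen hne
    exact ⟨q, hq⟩
  set ε : ℝ := min (δ / 2) (1 / (2 * M) / 2) with hε
  have hε0 : 0 < ε := by
    rw [hε]; apply lt_min
    · linarith
    · positivity
  have hε1 : ε ≤ δ / 2 := min_le_left _ _
  have hε2 : ε < 1 / (2 * M) := by
    have h1 : ε ≤ 1 / (2 * M) / 2 := min_le_right _ _
    have h2 : (0 : ℝ) < 1 / (2 * M) := by positivity
    linarith
  have hch : ∀ v : Fin (M + 1), ∃ q : ℚ, |F (q : ℝ) - (v : ℕ) / (M : ℝ)| < ε := by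
    intro v
    apply key _ _ _ _ hε0
    · positivity
    · rw [div_le_one hM0]
      have := v.2
      exact_mod_cast Nat.lt_succ_iff.mp this
  choose y hy using hch
  have hlt : ∀ v w : Fin (M + 1), v < w → y v < y w := by
    intro v w hvw
    by_contra hcon
    push_neg at hcon
    have h1 : F (y w : ℝ) ≤ F (y v : ℝ) := hmono (by exact_mod_cast hcon)
    have h2 := abs_lt.mp (hy v)
    have h3 := abs_lt.mp (hy w)
    have h4 : ((v : ℕ) : ℝ) + 1 ≤ (w : ℕ) := by exact_mod_cast hvw
    have h5 : ((v : ℕ) : ℝ) / M + 1 / M ≤ (w : ℕ) / M := by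
      rw [← add_div]; gcongr
    have h6 : (1 : ℝ) / M = 2 * (1 / (2 * M)) := by field_simp
    linarith [h2.1, h2.2, h3.1, h3.2]
  refine ⟨y, (StrictMono.monotone (fun v w h => hlt v w h)), ?_⟩
  intro v
  have hle : ((y v.castSucc : ℚ) : ℝ) ≤ ((y v.succ : ℚ) : ℝ) := by
    exact_mod_cast (hlt _ _ (Fin.castSucc_lt_succ)).le
  have hio : ∀ x, κ.real (Set.Iio x) = F x := by
    intro x
    rw [hFr]
    apply measureReal_congr
    exact (Iio_ae_eq_Iic' (hκ x))
  have hdiff : κ.real (Set.Ico ((y v.castSucc : ℚ) : ℝ) ((y v.succ : ℚ) : ℝ)) = F (y v.succ : ℝ) - F (y v.castSucc : ℝ) := by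
    rw [← hio, ← hio]
    have hU : Set.Iio ((y v.succ : ℚ) : ℝ) = Set.Iio ((y v.castSucc : ℚ) : ℝ) ∪ Set.Ico ((y v.castSucc : ℚ) : ℝ) ((y v.succ : ℚ) : ℝ) :=
      (Set.Iio_union_Ico_eq_Iio hle).symm
    rw [hU, measureReal_union _ measurableSet_Ico]
    · ring
    · rw [Set.disjoint_left]
      intro x hx hx'
      exact absurd hx'.1 (not_le.mpr hx)
  rw [hdiff]
  have h2 := abs_lt.mp (hy v.castSucc)
  have h3 := abs_lt.mp (hy v.succ)
  have h4 : (((v.succ : Fin (M + 1)) : ℕ) : ℝ) / M = (((v.castSucc : Fin (M + 1)) : ℕ) : ℝ) / M + 1 / M := by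
    rw [← add_div]; congr 1
    simp
  rw [abs_le]
  constructor <;> linarith [h2.1, h2.2, h3.1, h3.2]

end Pool.Agent.Work.MP_763b10_co.AC
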