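import Pool.Agent.Work.MP_763b10_co.AC.Defs

/-!
# One dimensional sums.  Size: S-M.

`sumK1_le`: split `i < M` into `i < a` and `a ≤ i`: the first part is a sum of distinct terms `1/(d+1)`, `d = a - i`; since
`i ↦ 1/(a - i + 1)` is increasing one may compare with the last terms: it is at most `∑_{d=1}^{M} 1/(d+1) ≤ HH M` (at most `M` terms,
the `j`-th largest is `≤ 1/(j+1)`); the second part is `∑_{d=0}^{M-1-a} 1/(d+1) ≤ HH M`.  (Alternative: induction on `M` is awkward; a clean
way is to bound both `∑_{i < M, i ≤ a} 1/(a-i+1)` and `∑_{i < M, a ≤ i} 1/(i-a+1)` by `HH M` via an injective reindexing of the index set into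
`range M`: for `a < M` use `i ↦ a - i` and `i ↦ i - a`; for `a ≥ M` use `a - i ≥ (M-1) - i` and `i ↦ M - 1 - i`.)
`sumK2_ge`: induction on `M`: the difference between `M + 1` and `M` is `2 ∑_{i<M} 1/(M-i+2) + 1/2 = 2 (∑_{d=1}^{M} 1/(d+2)) + 1/2
= 2 (HH (M+2) - 3/2) + 1/2 ≥ 2 HH M - 5/2`, and `(2 (M+1) HH (M+1) - 5 (M+1)) - (2 M HH M - 5 M) = 2 HH M + 2 - 5 = 2 HH M - 3`.
`HH_tendsto`: `Real.tendsto_sum_range_one_div_nat_succ_atTop`.
-/

namespace Pool.Agent.Work.MP_763b10_co.AC

private theorem inv_le_HH (S : Finset ℕ) (d : ℕ → ℕ) (M : ℕ) (hd : ∀ i ∈ S, d i < M)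
    (hinj : Set.InjOn d S) : ∑ i ∈ S, ((d i : ℝ) + 1)⁻¹ ≤ HH M := by
  have h1 : ∑ i ∈ S, ((d i : ℝ) + 1)⁻¹ = ∑ x ∈ S.image d, ((x : ℝ) + 1)⁻¹ := by
    rw [Finset.sum_image hinj]
  rw [h1, HH]
  refine Finset.sum_le_sum_of_subset_of_nonneg ?_ fun _ _ _ => by positivity
  intro x hx
  rw [Finset.mem_image] at hx
  obtain ⟨i, hi, rfl⟩ := hx
  exact Finset.mem_range.2 (hd i hi)

theorem sumK1_le (M a : ℕ) : ∑ i ∈ Finset.range M, K1 i a ≤ 2 * HH M := by
  rw [← Finset.sum_filter_add_sum_filter_not (Finset.range M) (fun i => i ≤ a)]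
  have h1 : ∑ i ∈ (Finset.range M).filter (fun i => i ≤ a), K1 i a ≤ HH M := by
    refine le_trans (Finset.sum_le_sum ?_) (inv_le_HH ((Finset.range M).filter (fun i => i ≤ a))
      (fun i => min a (M - 1) - i) M ?_ ?_)
    · intro i hi
      rw [Finset.mem_filter, Finset.mem_range] at hi
      unfold K1
      apply inv_anti₀ (by positivity)
      have h2 : (i : ℝ) ≤ (a : ℝ) := by exact_mod_cast hi.2
      rw [abs_of_nonpos (by linarith)]
      have h3 : min a (M - 1) - i + i ≤ a := by omega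
      have h4 : ((min a (M - 1) - i : ℕ) : ℝ) + (i : ℝ) ≤ (a : ℝ) := by exact_mod_cast h3
      linarith
    · intro i hi
      rw [Finset.mem_filter, Finset.mem_range] at hi
      omega
    · intro i hi j hj hij
      rw [Finset.mem_coe, Finset.mem_filter, Finset.mem_range] at hi hj
      dsimp only at hij
      omega
  have h2 : ∑ i ∈ (Finset.range M).filter (fun i => ¬ i ≤ a), K1 i a ≤ HH M := by
    refine le_trans (Finset.sum_le_sum ?_) (inv_le_HH ((Finset.range M).filter (fun i => ¬ i ≤ a))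
      (fun i => i - a) M ?_ ?_)
    · intro i hi
      rw [Finset.mem_filter, Finset.mem_range] at hi
      unfold K1
      apply inv_anti₀ (by positivity)
      have h2 : (a : ℝ) ≤ (i : ℝ) := by exact_mod_cast (not_le.1 hi.2).le
      rw [abs_of_nonneg (by linarith)]
      have h3 : i - a + a = i := Nat.sub_add_cancel (not_le.1 hi.2).le
      have h4 : ((i - a : ℕ) : ℝ) + (a : ℝ) = (i : ℝ) := by exact_mod_cast h3
      linarith
    · intro i hi
      rw [Finset.mem_filter, Finset.mem_range] at hi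
      omega
    · intro i hi j hj hij
      rw [Finset.mem_coe, Finset.mem_filter, Finset.mem_range] at hi hj
      dsimp only at hij
      omega
  linarith

private theorem shift_sum (M : ℕ) :
    ∑ d ∈ Finset.range M, ((d : ℝ) + 3)⁻¹ = HH (M + 2) - 3 / 2 := by
  induction M with
  | zero =>
    rw [HH, Finset.sum_range_succ, Finset.sum_range_succ]
    norm_num
  | succ M ih =>
    rw [Finset.sum_range_succ, ih, show M + 1 + 2 = (M + 2) + 1 by ring, HH, HH,
      Finset.sum_range_succ _ (M + 2)]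
    push_cast
    rw [show (M : ℝ) + 2 + 1 = (M : ℝ) + 3 by ring]
    ring

private theorem HH_mono2 (M : ℕ) : HH M ≤ HH (M + 2) := by
  rw [HH, HH]
  refine Finset.sum_le_sum_of_subset_of_nonneg ?_ fun _ _ _ => by positivity
  intro x hx
  rw [Finset.mem_range] at hx ⊢
  omega

private theorem K2_comm (i j : ℕ) : K2 i j = K2 j i := by
  unfold K2
  rw [abs_sub_comm]

private theorem row_ge (M : ℕ) : HH M - 3 / 2 ≤ ∑ i ∈ Finset.range M, K2 i M := by
  have h1 : ∑ i ∈ Finset.range M, K2 i M =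
      ∑ i ∈ Finset.range M, (((M - 1 - i : ℕ) : ℝ) + 3)⁻¹ := by
    refine Finset.sum_congr rfl fun i hi => ?_
    rw [Finset.mem_range] at hi
    unfold K2
    congr 1
    have h2 : (i : ℝ) ≤ (M : ℝ) := by exact_mod_cast hi.le
    rw [abs_of_nonpos (by linarith)]
    have h3 : M - 1 - i + 1 + i = M := by omega
    have h4 : ((M - 1 - i : ℕ) : ℝ) + 1 + (i : ℝ) = (M : ℝ) := by exact_mod_cast h3
    linarith
  rw [h1, Finset.sum_range_reflect (fun d : ℕ => ((d : ℝ) + 3)⁻¹) M, shift_sum]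
  linarith [HH_mono2 M]

theorem sumK2_ge (M : ℕ) :
    2 * (M : ℝ) * HH M - 5 * (M : ℝ) ≤ ∑ i ∈ Finset.range M, ∑ j ∈ Finset.range M, K2 i j := by
  induction M with
  | zero => simp
  | succ M ih =>
    have h1 : ∑ i ∈ Finset.range (M + 1), ∑ j ∈ Finset.range (M + 1), K2 i j =
        ∑ i ∈ Finset.range M, ∑ j ∈ Finset.range M, K2 i j +
          2 * ∑ i ∈ Finset.range M, K2 i M + 1 / 2 := by
      rw [Finset.sum_range_succ]
      simp_rw [Finset.sum_range_succ]
      rw [Finset.sum_add_distrib]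
      have h2 : ∑ j ∈ Finset.range M, K2 M j = ∑ i ∈ Finset.range M, K2 i M :=
        Finset.sum_congr rfl fun i _ => K2_comm M i
      have h3 : K2 M M = 1 / 2 := by
        unfold K2
        simp
      rw [h2, h3]
      ring
    have h4 : HH (M + 1) = HH M + ((M : ℝ) + 1)⁻¹ := by
      rw [HH, HH, Finset.sum_range_succ]
    have h5 : ((M : ℝ) + 1) * ((M : ℝ) + 1)⁻¹ = 1 := mul_inv_cancel₀ (by positivity)
    have h6 := row_ge M
    rw [h1, h4]
    push_cast
    nlinarith [h5, h6, ih]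

theorem HH_tendsto : Filter.Tendsto HH Filter.atTop Filter.atTop := by
  have h := Real.tendsto_sum_range_one_div_nat_succ_atTop
  refine h.congr fun n => ?_
  rw [HH]
  exact Finset.sum_congr rfl fun i _ => one_div _

end Pool.Agent.Work.MP_763b10_co.AC
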