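import Pool.Agent.Work.MP_763b10_co.AC.Quan

/-!
# Finitely many sets of fibres with common approximate quantiles.  Size: M.

For a monotone `y : Fin (M+1) → ℚ` let `S y = {t | ∀ v, |(ρ.condKernel t).real (Ico (y v.castSucc) (y v.succ)) - 1/M| ≤ δ}`, measurable
(`ProbabilityTheory.Kernel.measurable_coe`).  By `quan`, `ρ.fst`-almost every `t` lies in some `S y` (`ρ.condKernel t` is a probability measure).  The set of the
`y` is countable; enumerate it (`exists_surjective_nat` / `Encodable`) as `y 0, y 1, ...` and put `T n = S (y n) \ ⋃_{m<n} S (y m)` (`disjointed`).  The measures of the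
finite unions converge to `ρ.fst univ` (`tendsto_measure_iUnion_atTop` / `MeasureTheory.measure_iUnion_eq_iSup_accumulate`), so a finite part is enough.
(The type of monotone rational vectors is nonempty, e.g. the zero vector.)
-/

open MeasureTheory

namespace Pool.Agent.Work.MP_763b10_co.AC

theorem tsel (ρ : Measure (ℝ × ℝ)) [IsFiniteMeasure ρ] (h2 : ∀ᵐ t ∂ρ.fst, ∀ y, ρ.condKernel t {y} = 0) (M : ℕ)
    (hM : 1 ≤ M) (δ : ℝ) (hδ : 0 < δ) :
    ∃ (s : ℕ) (T : Fin s → Set ℝ) (y : Fin s → Fin (M + 1) → ℝ), (∀ l, MeasurableSet (T l)) ∧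
      (Pairwise fun i j => Disjoint (T i) (T j)) ∧ (∀ l, Monotone (y l)) ∧
      (∀ l, ∀ t ∈ T l, ∀ v : Fin M,
        |(ρ.condKernel t).real (Set.Ico (y l v.castSucc) (y l v.succ)) - 1 / (M : ℝ)| ≤ δ) ∧
      ρ.fst.real Set.univ - δ ≤ ρ.fst.real (⋃ l, T l) := by
  classical
  -- the type of monotone rational vectors
  let Y : Type := {y : Fin (M + 1) → ℚ // Monotone y}
  have : Nonempty Y := ⟨⟨fun _ => 0, fun _ _ _ => le_rfl⟩⟩
  obtain ⟨e, he⟩ := exists_surjective_nat Y
  let S : ℕ → Set ℝ := fun n => {t | ∀ v : Fin M,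
    |(ρ.condKernel t).real (Set.Ico (((e n).1 v.castSucc : ℚ) : ℝ) (((e n).1 v.succ : ℚ) : ℝ)) -
      1 / (M : ℝ)| ≤ δ}
  have hSm : ∀ n, MeasurableSet (S n) := by
    intro n
    have : S n = ⋂ v : Fin M, {t | |(ρ.condKernel t).real
        (Set.Ico (((e n).1 v.castSucc : ℚ) : ℝ) (((e n).1 v.succ : ℚ) : ℝ)) - 1 / (M : ℝ)| ≤ δ} := by
      ext t
      simp [S]
    rw [this]
    refine MeasurableSet.iInter fun v => ?_
    have hm : Measurable fun t => (ρ.condKernel t).real
        (Set.Ico (((e n).1 v.castSucc : ℚ) : ℝ) (((e n).1 v.succ : ℚ) : ℝ)) :=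
      (ProbabilityTheory.Kernel.measurable_coe _ measurableSet_Ico).ennreal_toReal
    exact measurableSet_le ((hm.sub_const _).abs) measurable_const
  have hcov : ρ.fst (⋃ n, S n)ᶜ = 0 := by
    have h3 : ∀ᵐ t ∂ρ.fst, t ∈ ⋃ n, S n := by
      filter_upwards [h2] with t ht
      obtain ⟨y, hy, hy2⟩ := quan (ρ.condKernel t) ht M hM δ hδ
      obtain ⟨n, hn⟩ := he ⟨y, hy⟩
      refine Set.mem_iUnion.2 ⟨n, ?_⟩
      intro v
      rw [hn]
      exact hy2 v
    exact h3
  have huniv : ρ.fst (⋃ n, S n) = ρ.fst Set.univ := by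
    have hmU : MeasurableSet (⋃ n, S n) := MeasurableSet.iUnion hSm
    have := measure_add_measure_compl (μ := ρ.fst) hmU
    rw [hcov, add_zero] at this
    exact this
  -- accumulate
  have hlim : Filter.Tendsto (fun n => ρ.fst.real (Set.accumulate S n)) Filter.atTop
      (nhds (ρ.fst.real Set.univ)) := by
    have h4 : Filter.Tendsto (fun n => ρ.fst (Set.accumulate S n)) Filter.atTop
        (nhds (ρ.fst Set.univ)) := by
      rw [← huniv]
      exact tendsto_measure_iUnion_accumulate
    exact (ENNReal.tendsto_toReal (measure_ne_top _ _)).comp h4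
  obtain ⟨N, hN⟩ := ((tendsto_order.1 hlim).1 (ρ.fst.real Set.univ - δ) (by linarith)).exists
  refine ⟨N + 1, fun l => disjointed S l, fun l k => (((e l).1 k : ℚ) : ℝ), ?_, ?_, ?_, ?_, ?_⟩
  · intro l
    exact MeasurableSet.disjointed hSm l
  · intro i j hij
    exact disjoint_disjointed S (fun h => hij (Fin.ext h))
  · intro l a b hab
    change (((e l).1 a : ℚ) : ℝ) ≤ (((e l).1 b : ℚ) : ℝ)
    exact_mod_cast (e l).2 hab
  · intro l t ht v
    exact disjointed_subset S l ht v
  · have h5 : (⋃ l : Fin (N + 1), disjointed S l) = Set.accumulate S N := by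
      ext t
      rw [Set.mem_iUnion, Set.mem_accumulate]
      constructor
      · rintro ⟨l, hl⟩
        exact ⟨l, Nat.lt_succ_iff.1 l.2, disjointed_subset S l hl⟩
      · rintro ⟨m, hm, ht⟩
        have h6 : t ∈ partialSups S m := by
          rw [partialSups_eq_biUnion_range]
          simp only [Set.mem_iUnion, Finset.mem_range]
          exact ⟨m, Nat.lt_succ_self m, ht⟩
        rw [← partialSups_disjointed, partialSups_eq_biUnion_range] at h6
        simp only [Set.mem_iUnion, Finset.mem_range] at h6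
        obtain ⟨k, hk, hk2⟩ := h6
        exact ⟨⟨k, by omega⟩, hk2⟩
    rw [h5]
    exact hN.le

end Pool.Agent.Work.MP_763b10_co.AC
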